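import Pool.Agent.H65.PP.F

/-!
Row TGM (project MP_28250c_TG): numerics, from `OutGen` (H65/PP/OF.lean), for arbitrary CNFs with graded modules of the right size.
`ctg p = log 2 / (400 log (2p+4))`.  (helper65; uniform form of `of_gen`)
-/

set_option autoImplicit false
open Finset

namespace PPh

open ACpFrege

/-- Exponentials beat polynomials. -/
private theorem ev_exp {a : ℝ} (ha : 1 < a) (B : ℝ) : ∃ l0 : ℕ, ∀ l ≥ l0, B * (l : ℝ) ≤ a ^ l := by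
  have h := tendsto_pow_const_div_const_pow_of_one_lt 1 ha
  have h2 : ∀ᶠ n : ℕ in Filter.atTop, (n : ℝ) ^ 1 / a ^ n < 1 / (|B| + 1) := h.eventually (gt_mem_nhds (by positivity))
  obtain ⟨l0, h0⟩ := Filter.eventually_atTop.mp h2
  refine ⟨l0, fun l hl => ?_⟩
  have h3 := h0 l hl
  have hp : 0 < a ^ l := pow_pos (by linarith) l
  rw [div_lt_div_iff₀ hp (by positivity), pow_one, one_mul] at h3
  nlinarith [le_abs_self B, Nat.cast_nonneg (α := ℝ) l]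

/-- The exponential inequality. -/
private theorem expo2 {C b l : ℕ} (hC : 1 ≤ C) (hb : 1 ≤ b) {y : ℝ} (hy1 : 1 ≤ y) (hly : (l : ℝ) ≤ y)
    (hY : Real.log (2 * C) + 15 * Real.log b + Real.log 2 < y * Real.log (3 / 2)) {N t : ℕ} (hN : (N : ℝ) ≤ 2 ^ y + 1)
    (ht : y ^ 2 ≤ t) : C * N * b ^ (15 * l) * 2 ^ t < 3 ^ t := by
  have hC' : (1 : ℝ) ≤ C := by exact_mod_cast hC
  have hb' : (1 : ℝ) ≤ b := by exact_mod_cast hb
  have hl32 : 0 < Real.log (3 / 2) := Real.log_pos (by norm_num)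
  have hlC : 0 ≤ Real.log (2 * C) := Real.log_nonneg (by linarith)
  have hlb : 0 ≤ Real.log b := Real.log_nonneg hb'
  have hl2 : 0 ≤ Real.log 2 := Real.log_nonneg (by norm_num)
  have hkey : 2 * (C : ℝ) * (b : ℝ) ^ (15 * l) * 2 ^ y < (3 / 2) ^ t := by
    have hb0 : (0 : ℝ) < b := by linarith
    have hpos : 0 < 2 * (C : ℝ) * (b : ℝ) ^ (15 * l) * 2 ^ y := by positivity
    rw [← Real.log_lt_log_iff hpos (by positivity)]
    rw [Real.log_mul (by positivity) (by positivity), Real.log_mul (by positivity) (by positivity), Real.log_pow,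
      Real.log_rpow (by norm_num), Real.log_pow]
    have h1 : y ^ 2 * Real.log (3 / 2) ≤ t * Real.log (3 / 2) := mul_le_mul_of_nonneg_right ht hl32.le
    have h2 : y * (Real.log (2 * C) + 15 * Real.log b + Real.log 2) < y * (y * Real.log (3 / 2)) :=
      mul_lt_mul_of_pos_left hY (by linarith)
    have h3 : Real.log (2 * C) ≤ y * Real.log (2 * C) := by nlinarith
    have h4 : (l : ℝ) * Real.log b ≤ y * Real.log b := mul_le_mul_of_nonneg_right hly hlb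
    push_cast
    nlinarith
  have h2y : (1 : ℝ) ≤ 2 ^ y := Real.one_le_rpow (by norm_num) (by linarith)
  have hN2 : (N : ℝ) ≤ 2 * 2 ^ y := by linarith
  have h5 : (C : ℝ) * N * (b : ℝ) ^ (15 * l) ≤ 2 * (C : ℝ) * (b : ℝ) ^ (15 * l) * 2 ^ y := by
    calc (C : ℝ) * N * (b : ℝ) ^ (15 * l) ≤ C * (2 * 2 ^ y) * (b : ℝ) ^ (15 * l) := by gcongr
      _ = _ := by ring
  have h6 : (C : ℝ) * N * (b : ℝ) ^ (15 * l) * 2 ^ t < 3 ^ t := by
    calc (C : ℝ) * N * (b : ℝ) ^ (15 * l) * 2 ^ t < (3 / 2) ^ t * 2 ^ t :=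
          mul_lt_mul_of_pos_right (h5.trans_lt hkey) (by positivity)
      _ = 3 ^ t := by rw [← mul_pow]; norm_num
  exact_mod_cast h6

/-- The length. -/
private theorem lens2 {d p C l : ℕ} (hp : 1 ≤ p) {y : ℝ} (hy : y ^ (d + 1) = (2 : ℝ) ^ ((1 : ℝ) / 20 * l)) (hy1 : 1 ≤ y)
    (hlp : 4 * (p : ℝ) ^ 2 ≤ y) {t : ℕ} (ht : (t : ℝ) ≤ y ^ 2 + 1) :
    (C : ℝ) * (p * t) ^ (d + 2) ≤ C * ((2 : ℝ) ^ ((1 : ℝ) / 4)) ^ l := by
  have hp' : (1 : ℝ) ≤ p := by exact_mod_cast hp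
  have ht2 : (t : ℝ) ≤ 2 * y ^ 2 := by nlinarith
  have h1 : ((p : ℝ) * t) ^ (d + 2) ≤ (y ^ (d + 1)) ^ 5 := by
    calc ((p : ℝ) * t) ^ (d + 2) ≤ (p * (2 * y ^ 2)) ^ (d + 2) := by gcongr
      _ = (2 * p) ^ (d + 2) * y ^ (2 * (d + 2)) := by
        rw [show (p : ℝ) * (2 * y ^ 2) = (2 * p) * y ^ 2 by ring, mul_pow, ← pow_mul]
      _ ≤ (2 * p) ^ (2 * (d + 1)) * y ^ (4 * (d + 1)) := by
        refine mul_le_mul ?_ ?_ (by positivity) (by positivity)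
        · exact pow_le_pow_right₀ (by linarith) (by omega)
        · exact pow_le_pow_right₀ hy1 (by omega)
      _ = ((4 * (p : ℝ) ^ 2) ^ (d + 1)) * y ^ (4 * (d + 1)) := by
        rw [pow_mul]
        congr 2
        ring
      _ ≤ y ^ (d + 1) * y ^ (4 * (d + 1)) := by gcongr
      _ = (y ^ (d + 1)) ^ 5 := by ring
  have h2 : (y ^ (d + 1)) ^ 5 = ((2 : ℝ) ^ ((1 : ℝ) / 4)) ^ l := by
    rw [hy, ← Real.rpow_natCast, ← Real.rpow_natCast, ← Real.rpow_mul (by norm_num), ← Real.rpow_mul (by norm_num)]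
    congr 1
    push_cast
    ring
  rw [h2] at h1
  exact mul_le_mul_of_nonneg_left h1 (Nat.cast_nonneg _)

/-- Natural number part: all bounds from `32 * b * l * L + 2 ≤ 2^(l/2)`. -/
private theorem natpart {C b l L N : ℕ} (hb : 1 ≤ b) (hl : 1 ≤ l) (hL : 1 ≤ L) (hC : C ≤ L) (hN : N ≤ 2 ^ L)
    (h : 32 * b * l * L + 2 ≤ 2 ^ (l / 2)) :
    L ≤ 2 ^ (l / 2) ∧ C * N ^ 2 * L ≤ 2 ^ (2 ^ (l / 2) / 2) ∧ 16 * L * (2 * (b ^ (5 * l)) ^ 2) ^ L ≤ 2 ^ (2 ^ (l / 2) / 2) := by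
  have h1 : 16 * (b * l * L) ≤ 2 ^ (l / 2) / 2 := by
    have : 32 * b * l * L = 2 * (16 * (b * l * L)) := by ring
    omega
  have hbl : 1 ≤ b * l := Nat.mul_pos hb hl
  have hLb : L ≤ b * l * L := Nat.le_mul_of_pos_left _ hbl
  have h2 : 2 ^ (16 * (b * l * L)) ≤ 2 ^ (2 ^ (l / 2) / 2) := Nat.pow_le_pow_right (by norm_num) h1
  have hLL : L ≤ 2 ^ L := Nat.lt_two_pow_self.le
  refine ⟨?_, ?_, ?_⟩
  · have : 32 * b * l * L = 32 * (b * l * L) := by ring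
    omega
  · calc C * N ^ 2 * L ≤ 2 ^ L * (2 ^ L) ^ 2 * 2 ^ L :=
          Nat.mul_le_mul (Nat.mul_le_mul (hC.trans hLL) (Nat.pow_le_pow_left hN 2)) hLL
      _ = 2 ^ (4 * L) := by ring
      _ ≤ 2 ^ (16 * (b * l * L)) := Nat.pow_le_pow_right (by norm_num) (by omega)
      _ ≤ _ := h2
  · have hbb : b ≤ 2 ^ b := Nat.lt_two_pow_self.le
    have h3 : 2 * (b ^ (5 * l)) ^ 2 ≤ 2 ^ (11 * (b * l)) := by
      calc 2 * (b ^ (5 * l)) ^ 2 ≤ 2 * ((2 ^ b) ^ (5 * l)) ^ 2 :=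
            Nat.mul_le_mul_left _ (Nat.pow_le_pow_left (Nat.pow_le_pow_left hbb _) 2)
        _ = 2 ^ (10 * (b * l) + 1) := by
          rw [← pow_mul, ← pow_mul, pow_succ, mul_comm]
          congr 2
          ring
        _ ≤ 2 ^ (11 * (b * l)) := Nat.pow_le_pow_right (by norm_num) (by omega)
    calc 16 * L * (2 * (b ^ (5 * l)) ^ 2) ^ L ≤ (2 ^ 4 * 2 ^ L) * (2 ^ (11 * (b * l))) ^ L :=
          Nat.mul_le_mul (Nat.mul_le_mul (by norm_num) hLL) (Nat.pow_le_pow_left h3 L)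
      _ = 2 ^ (4 + L + 11 * (b * l) * L) := by
        rw [← pow_mul, ← pow_add, ← pow_add]
      _ ≤ 2 ^ (16 * (b * l * L)) := by
        refine Nat.pow_le_pow_right (by norm_num) ?_
        have : 11 * (b * l) * L = 11 * (b * l * L) := by ring
        omega
      _ ≤ _ := h2

/-- The numerics, uniform in the CNF. -/
theorem tg_core {p : ℕ} (hp : p.Prime) {H : ℕ → CNF → ℕ → ℕ → ℕ → ℕ → Prop} (hG : OutGen p H)
    (S : List (Rule p)) (hS : ∀ R ∈ S, R.Sound) : ∃ l₀ : ℕ, ∀ l ≥ l₀, ∀ d : ℕ,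
      (l : ℝ) ^ (d + 1) ≤ 2 ^ ((1 : ℝ) / 20 * l) → ∀ (nv : ℕ) (F : CNF), (∀ L ≤ 2 ^ (l / 2),
        H nv F L ((2 * p + 4) ^ (15 * l)) (2 ^ (2 ^ (l / 2) / 2)) ((2 * ((2 * p + 4) ^ (5 * l)) ^ 2) ^ L)) →
      ∀ π : List (Fm p), Refutes S d F π → (2 : ℝ) ^ ((2 : ℝ) ^ ((1 : ℝ) / 20 * l / (d + 1))) ≤ psize π := by
  obtain ⟨C0, hC0⟩ := hG S hS
  set C : ℕ := C0 + 1 with hC
  set b : ℕ := 2 * p + 4 with hb
  have hb1 : 1 ≤ b := by omega
  have hl32 : 0 < Real.log (3 / 2) := Real.log_pos (by norm_num)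
  have ha : (1 : ℝ) < (2 : ℝ) ^ ((1 : ℝ) / 4) := Real.one_lt_rpow (by norm_num) (by norm_num)
  obtain ⟨l2, hl2⟩ := ev_exp ha (68 * b * C)
  obtain ⟨l3, hl3⟩ := exists_nat_ge (max (max 1 (4 * (p : ℝ) ^ 2))
    ((Real.log (2 * C) + 15 * Real.log b + Real.log 2 + 1) / Real.log (3 / 2)))
  refine ⟨max l2 (max l3 1), fun l hl d hd nv F hM π hπ => ?_⟩
  have hl0 : 1 ≤ l := by omega
  have hlr : (1 : ℝ) ≤ l := by exact_mod_cast hl0
  have hl3r : max (max 1 (4 * (p : ℝ) ^ 2)) ((Real.log (2 * C) + 15 * Real.log b + Real.log 2 + 1) / Real.log (3 / 2)) ≤ (l : ℝ) := by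
    refine hl3.trans ?_
    have : l3 ≤ l := by omega
    exact_mod_cast this
  set y : ℝ := (2 : ℝ) ^ ((1 : ℝ) / 20 * l / (d + 1)) with hy
  have hypow : y ^ (d + 1) = (2 : ℝ) ^ ((1 : ℝ) / 20 * l) := by
    rw [hy, ← Real.rpow_natCast, ← Real.rpow_mul (by norm_num)]
    congr 1
    push_cast
    have : ((d : ℝ) + 1) ≠ 0 := by positivity
    field_simp
  have hly : (l : ℝ) ≤ y := by
    rw [← hypow] at hd
    exact le_of_pow_le_pow_left₀ (by omega) (by positivity) hd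
  have hy1 : 1 ≤ y := hlr.trans hly
  have hlp : 4 * (p : ℝ) ^ 2 ≤ y := ((le_max_right _ _).trans ((le_max_left _ _).trans hl3r)).trans hly
  have hY : Real.log (2 * C) + 15 * Real.log b + Real.log 2 < y * Real.log (3 / 2) := by
    have := ((le_max_right _ _).trans hl3r).trans hly
    rw [div_le_iff₀ hl32] at this
    linarith
  set t : ℕ := ⌈y ^ 2⌉₊ with ht
  have ht1 : (t : ℝ) ≤ y ^ 2 + 1 := (Nat.ceil_lt_add_one (by positivity)).le
  have ht2 : y ^ 2 ≤ t := Nat.le_ceil _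
  have ht3 : 1 ≤ t := by
    have : (1 : ℝ) ≤ t := by nlinarith
    exact_mod_cast this
  set N : ℕ := ⌈(2 : ℝ) ^ y⌉₊ with hN
  have hN1 : (N : ℝ) ≤ 2 ^ y + 1 := (Nat.ceil_lt_add_one (by positivity)).le
  set L : ℕ := C * (p * t) ^ (d + 2) with hL
  have hpt : 1 ≤ p * t := Nat.mul_pos hp.pos ht3
  have hpt2 : p * t ≤ (p * t) ^ (d + 2) := Nat.le_self_pow (by omega) _
  have htL : t ≤ L := by
    calc t ≤ p * t := Nat.le_mul_of_pos_left _ hp.pos
      _ ≤ (p * t) ^ (d + 2) := hpt2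
      _ ≤ C * (p * t) ^ (d + 2) := Nat.le_mul_of_pos_left _ (by omega)
  have hCL : C ≤ L := Nat.le_mul_of_pos_right _ (Nat.lt_of_lt_of_le hpt hpt2)
  have hNL : N ≤ 2 ^ L := by
    refine Nat.ceil_le.2 ?_
    push_cast
    rw [← Real.rpow_natCast]
    refine Real.rpow_le_rpow_of_exponent_le (by norm_num) ?_
    have h1 : y ≤ y ^ 2 := by nlinarith
    have h2 : (t : ℝ) ≤ L := by exact_mod_cast htL
    linarith
  have hbig : 32 * b * l * L + 2 ≤ 2 ^ (l / 2) := by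
    have h1 : (L : ℝ) ≤ C * ((2 : ℝ) ^ ((1 : ℝ) / 4)) ^ l := by
      have := lens2 (C := C) hp.one_lt.le hypow hy1 hlp ht1
      rw [hL]
      push_cast
      exact this
    have h2 := hl2 l (by omega)
    set z : ℝ := ((2 : ℝ) ^ ((1 : ℝ) / 4)) ^ l with hz
    have hz1 : 1 ≤ z := one_le_pow₀ ha.le
    have h3 : z ^ 2 ≤ 2 * (2 : ℝ) ^ (l / 2 : ℕ) := by
      have e1 : z ^ 2 = (2 : ℝ) ^ ((l : ℝ) / 2) := by
        rw [hz, ← Real.rpow_natCast, ← Real.rpow_natCast, ← Real.rpow_mul (by positivity), ← Real.rpow_mul (by norm_num)]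
        congr 1
        push_cast
        ring
      have e2 : 2 * (2 : ℝ) ^ (l / 2 : ℕ) = (2 : ℝ) ^ (((l / 2 : ℕ) : ℝ) + 1) := by
        rw [Real.rpow_add (by norm_num), Real.rpow_natCast, Real.rpow_one]
        ring
      rw [e1, e2]
      refine Real.rpow_le_rpow_of_exponent_le (by norm_num) ?_
      have e3 : l ≤ 2 * (l / 2) + 1 := by omega
      have e4 : (l : ℝ) ≤ 2 * ((l / 2 : ℕ) : ℝ) + 1 := by exact_mod_cast e3
      linarith
    have hbr : (1 : ℝ) ≤ b := by exact_mod_cast hb1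
    have hCr : (1 : ℝ) ≤ C := by exact_mod_cast (by omega : 1 ≤ C)
    have h4 : 32 * (b : ℝ) * l * L + 2 ≤ 34 * (b * C * l) * z := by
      have h5 : 32 * (b : ℝ) * l * L ≤ 32 * (b : ℝ) * l * (C * z) := by
        refine mul_le_mul_of_nonneg_left h1 (by positivity)
      have h6 : (1 : ℝ) ≤ b * C * l * z := by
        have h7 : (1 : ℝ) ≤ b * C := one_le_mul_of_one_le_of_one_le hbr hCr
        have h8 : (1 : ℝ) ≤ b * C * l := one_le_mul_of_one_le_of_one_le h7 hlr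
        exact one_le_mul_of_one_le_of_one_le h8 hz1
      nlinarith
    have h5 : 34 * ((b : ℝ) * C * l) * z ≤ (2 : ℝ) ^ (l / 2 : ℕ) := by
      have h6 : 68 * ((b : ℝ) * C * l) ≤ z := by
        calc 68 * ((b : ℝ) * C * l) = 68 * b * C * l := by ring
          _ ≤ z := h2
      nlinarith
    have h6 := h4.trans h5
    exact_mod_cast h6
  obtain ⟨q1, q2, q3⟩ := natpart hb1 hl0 (ht3.trans htL) hCL hNL hbig
  have hGm := hM L q1
  have hfin := hC0 d _ _ L _ _ _ N t hGm ht3 ((Nat.mul_le_mul_right _ (Nat.le_succ C0)).trans (le_of_eq hL.symm)) ?_ ?_ q3 π hπ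
  · exact (Nat.le_ceil _).trans (by exact_mod_cast hfin.le)
  · refine lt_of_le_of_lt ?_ (expo2 (C := C) (by omega) hb1 hy1 hly hY hN1 ht2)
    exact Nat.mul_le_mul_right _ (Nat.mul_le_mul_right _ (Nat.mul_le_mul_right _ (Nat.le_succ C0)))
  · exact (Nat.mul_le_mul_right _ (Nat.mul_le_mul_right _ (Nat.le_succ C0))).trans q2


/-- The exponent. -/
noncomputable def ctg (p : ℕ) : ℝ := Real.log 2 / (400 * Real.log (2 * p + 4))

theorem tg_num {p : ℕ} (hp : p.Prime) {H : ℕ → CNF → ℕ → ℕ → ℕ → ℕ → Prop} (hG : OutGen p H) (S : List (Rule p))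
    (hS : ∀ R ∈ S, R.Sound) (l₁ : ℕ) : ∃ n₀ : ℕ, ∀ n ≥ n₀, ∀ d : ℕ, Real.log n ^ (d + 1) ≤ (n : ℝ) ^ ctg p →
      ∃ l : ℕ, l₁ ≤ l ∧ (2 * p + 4) ^ (5 * l) + p ^ l + 2 ≤ n ∧ ∀ (nv : ℕ) (F : CNF), (∀ L ≤ 2 ^ (l / 2),
        H nv F L ((2 * p + 4) ^ (15 * l)) (2 ^ (2 ^ (l / 2) / 2)) ((2 * ((2 * p + 4) ^ (5 * l)) ^ 2) ^ L)) →
        ∀ π : List (Fm p), Refutes S d F π → (2 : ℝ) ^ ((n : ℝ) ^ (ctg p / (d + 1))) ≤ psize π := by
  obtain ⟨l0, hl0⟩ := tg_core hp hG S hS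
  set B : ℕ := (2 * p + 4) ^ 5 with hB
  have hB1 : 1 < B := Nat.one_lt_pow (by norm_num) (by omega)
  have hB4 : 4 ≤ B := by
    calc 4 ≤ 2 * p + 4 := by omega
      _ ≤ (2 * p + 4) ^ 5 := Nat.le_self_pow (by norm_num) _
  have hpB : p ≤ B := by
    calc p ≤ 2 * p + 4 := by omega
      _ ≤ (2 * p + 4) ^ 5 := Nat.le_self_pow (by norm_num) _
  have hBr : (4 : ℝ) ≤ B := by exact_mod_cast hB4
  have hl2 : 0 < Real.log 2 := Real.log_pos (by norm_num)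
  have hlB : 1 ≤ Real.log B := by
    rw [Real.le_log_iff_exp_le (by linarith)]
    linarith [Real.exp_one_lt_d9]
  have hlB0 : 0 < Real.log B := by linarith
  have hlB5 : Real.log B = 5 * Real.log (2 * p + 4) := by
    rw [hB]
    push_cast
    rw [Real.log_pow]
    norm_num
  have hc : ctg p = 1 / 20 * (Real.log 2 / Real.log B) / 4 := by
    have : Real.log (2 * (p : ℝ) + 4) ≠ 0 := by
      intro h
      rw [h] at hlB5
      linarith
    rw [hlB5]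
    unfold ctg
    field_simp
    norm_num
  have hcp : 0 < ctg p := by
    rw [hc]
    positivity
  refine ⟨B ^ (l0 + l₁ + 2), fun n hn d hd => ?_⟩
  have hn1 : 1 ≤ n := le_trans (Nat.one_le_pow _ _ (by omega)) hn
  have hnr : (1 : ℝ) ≤ n := by exact_mod_cast hn1
  have hnr0 : (0 : ℝ) < n := by linarith
  obtain ⟨l, hl⟩ : ∃ l : ℕ, Nat.log B n = l + 1 := by
    have : l0 + l₁ + 2 ≤ Nat.log B n := (Nat.le_log_iff_pow_le hB1 (by omega)).2 hn
    exact ⟨Nat.log B n - 1, by omega⟩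
  have h1 : B ^ (l + 1) ≤ n := by
    rw [← hl]
    exact Nat.pow_log_le_self B (by omega)
  have h2 : n < B ^ (l + 2) := by
    have := Nat.lt_pow_succ_log_self hB1 n
    rw [hl] at this
    exact this
  have hl1 : l0 + l₁ + 1 ≤ l := by
    have : l0 + l₁ + 2 ≤ Nat.log B n := (Nat.le_log_iff_pow_le hB1 (by omega)).2 hn
    omega
  have hlr : (1 : ℝ) ≤ l := by exact_mod_cast (by omega : 1 ≤ l)
  have hlog1 : ((l : ℝ) + 1) * Real.log B ≤ Real.log n := by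
    have : Real.log ((B : ℝ) ^ (l + 1)) ≤ Real.log n := Real.log_le_log (by positivity) (by exact_mod_cast h1)
    rw [Real.log_pow] at this
    push_cast at this
    exact this
  have hlog2 : Real.log n ≤ ((l : ℝ) + 2) * Real.log B := by
    have : Real.log n ≤ Real.log ((B : ℝ) ^ (l + 2)) := Real.log_le_log hnr0 (by exact_mod_cast h2.le)
    rw [Real.log_pow] at this
    push_cast at this
    exact this
  have hln : (l : ℝ) ≤ Real.log n := by nlinarith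
  have hnc : (n : ℝ) ^ ctg p ≤ (2 : ℝ) ^ ((1 : ℝ) / 20 * l) := by
    rw [Real.rpow_def_of_pos hnr0, Real.rpow_def_of_pos (by norm_num)]
    refine Real.exp_le_exp.2 ?_
    have e1 : Real.log n * ctg p ≤ ((l : ℝ) + 2) * Real.log B * ctg p := mul_le_mul_of_nonneg_right hlog2 hcp.le
    have e2 : ((l : ℝ) + 2) * Real.log B * ctg p = ((l : ℝ) + 2) / 4 * (1 / 20 * Real.log 2) := by
      rw [hc]
      field_simp
    have e3 : ((l : ℝ) + 2) / 4 * (1 / 20 * Real.log 2) ≤ (l : ℝ) * (1 / 20 * Real.log 2) :=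
      mul_le_mul_of_nonneg_right (by linarith) (by positivity)
    calc Real.log n * ctg p ≤ (l : ℝ) * (1 / 20 * Real.log 2) := by linarith
      _ = Real.log 2 * (1 / 20 * l) := by ring
  have hdl : (l : ℝ) ^ (d + 1) ≤ (2 : ℝ) ^ ((1 : ℝ) / 20 * l) := by
    calc (l : ℝ) ^ (d + 1) ≤ Real.log n ^ (d + 1) := pow_le_pow_left₀ (Nat.cast_nonneg _) hln _
      _ ≤ (n : ℝ) ^ ctg p := hd
      _ ≤ _ := hnc
  have hB5 : (2 * p + 4) ^ (5 * l) + p ^ l + 2 ≤ n := by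
    have e1 : (2 * p + 4) ^ (5 * l) = B ^ l := by rw [pow_mul]
    have e2 : p ^ l ≤ B ^ l := Nat.pow_le_pow_left hpB l
    have e3 : 1 ≤ B ^ l := Nat.one_le_pow _ _ (by omega)
    calc (2 * p + 4) ^ (5 * l) + p ^ l + 2 ≤ B ^ l + B ^ l + 2 * B ^ l := by rw [e1]; omega
      _ = B ^ l * 4 := by ring
      _ ≤ B ^ l * B := Nat.mul_le_mul_left _ hB4
      _ = B ^ (l + 1) := (pow_succ _ _).symm
      _ ≤ n := h1
  refine ⟨l, by omega, hB5, fun nv F hF π hπ => ?_⟩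
  refine le_trans ?_ (hl0 l (by omega) d hdl nv F hF π hπ)
  refine Real.rpow_le_rpow_of_exponent_le (by norm_num) ?_
  have hd0 : (0 : ℝ) < (d : ℝ) + 1 := by positivity
  have e1 : (n : ℝ) ^ (ctg p / (d + 1)) = ((n : ℝ) ^ ctg p) ^ (1 / ((d : ℝ) + 1)) := by
    rw [← Real.rpow_mul hnr0.le]
    congr 1
    ring
  have e2 : (2 : ℝ) ^ ((1 : ℝ) / 20 * l / (d + 1)) = ((2 : ℝ) ^ ((1 : ℝ) / 20 * l)) ^ (1 / ((d : ℝ) + 1)) := by
    rw [← Real.rpow_mul (by norm_num)]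
    congr 1
    ring
  rw [e1, e2]
  exact Real.rpow_le_rpow (by positivity) hnc (by positivity)

end PPh
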