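import Pool.Agent.H85.PC.Defs

/-!
helper94 (project MP_28250c_TG, Tseitin formulas on the grid for AC0[p]-Frege): definitions.
-/

set_option autoImplicit false
open Finset

namespace PPh

open ACpFrege

/-- The number of the edge from the vertex `(i, j)` to `(i, j + 1)` of a grid with `N` columns. -/
def he (N i j : ℕ) : ℕ := 2 * (i * N + j)

/-- The number of the edge from the vertex `(i, j)` to `(i + 1, j)`. -/
def ve (N i j : ℕ) : ℕ := 2 * (i * N + j) + 1

/-- The edges at the vertex `(i, j)` of the grid with `M` rows and `N` columns, with `true` for the edges into the vertex. -/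
def inc (M N i j : ℕ) : List (ℕ × Bool) :=
  ((if 0 < j then [(he N i (j - 1), true)] else []) ++ (if 0 < i then [(ve N (i - 1) j, true)] else [])) ++
    ((if j + 1 < N then [(he N i j, false)] else []) ++ (if i + 1 < M then [(ve N i j, false)] else []))

/-- All edges of the grid. -/
def edg (M N : ℕ) : List ℕ :=
  ((List.range M).flatMap fun i => (List.range (N - 1)).map fun j => he N i j) ++
    (List.range (M - 1)).flatMap fun i => (List.range N).map fun j => ve N i j

/-- All assignments of values below `q` to the edges of a list: lists of (edge, direction, value). -/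
def asg (q : ℕ) : List (ℕ × Bool) → List (List (ℕ × Bool × ℕ))
  | [] => [[]]
  | e :: l => (List.range q).flatMap fun c => (asg q l).map fun a => (e.1, e.2, c) :: a

/-- The inflow minus the outflow of an assignment, modulo `q`. -/
def net (q : ℕ) (a : List (ℕ × Bool × ℕ)) : ZMod q := (a.map fun x => if x.2.1 then (x.2.2 : ZMod q) else -(x.2.2 : ZMod q)).sum

/-- Inflow minus outflow of the edges in `l` is `s` modulo `q`: every violating assignment is excluded by a clause. The value of the edge
`e` is `c` if the variable `x_(q e + c)` is true. -/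
def eqc (q : ℕ) (l : List (ℕ × Bool)) (s : ZMod q) : CNF := ((asg q l).filter fun a => net q a ≠ s).map fun a => a.map fun x => nov q x.1 x.2.2

/-- The Tseitin formula modulo `q` of the `M × N` grid with the charges `σ`: every edge has exactly one value in `Z/q`, and at every
vertex inflow minus outflow is the charge. -/
def tse (q M N : ℕ) (σ : ℕ → ℕ → ZMod q) : CNF :=
  (edg M N).flatMap (exone q) ++ (List.range M).flatMap fun i => (List.range N).flatMap fun j => eqc q (inc M N i j) (σ i j)

/-- The sum of the edges in `l` is `s` modulo 2: every violating assignment of truth values is excluded by a clause. The value of the edge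
`e` is the variable `x_e`. -/
def eqb (l : List (ℕ × Bool)) (s : ZMod 2) : CNF := ((asg 2 l).filter fun a => net 2 a ≠ s).map fun a => a.map fun x => (x.1, decide (x.2.2 = 0))

/-- The classical Tseitin formula (modulo 2) of the `M × N` grid with the charges `σ`, one variable for every edge. -/
def tsb (M N : ℕ) (σ : ℕ → ℕ → ZMod 2) : CNF :=
  (List.range M).flatMap fun i => (List.range N).flatMap fun j => eqb (inc M N i j) (σ i j)

/-- Inflow minus outflow at the vertex `(i, j)` of values `h i j` of the horizontal and `v i j` of the vertical edges. -/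
def dv {G : Type} [AddCommGroup G] (M N : ℕ) (h v : ℕ → ℕ → G) (i j : ℕ) : G :=
  ((if 0 < j then h i (j - 1) else 0) + (if 0 < i then v (i - 1) j else 0)) -
    ((if j + 1 < N then h i j else 0) + (if i + 1 < M then v i j else 0))

/-- The operator which says that the edge with operator `Y` (token on the edge) has the value `c`, where the value is `z` without token
and `z + a` with token. -/
def wop {R : Type} [Ring R] {q : ℕ} (J Y : R) (z a c : ZMod q) : R := if c = z then J - Y else if c = z + a then Y else 0

section

variable {K : Type} [Field K] {E : Type} [AddCommGroup E] [Module K E] {n₀ : ℕ}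

/-- Operators for the onto functional pigeonhole principle (`m` pigeons, `n` holes): helper85's `FPM` and column sums. -/
structure OPM (g : Gm K E n₀) (x : ℕ → ℕ → E →ₗ[K] E) (m n : ℕ) : Prop where
  op : ∀ i k, x i k ∈ g.Op 1
  sq : ∀ i k, x i k * x i k = g.J * x i k
  row : ∀ i < m, ∀ k k', k ≠ k' → x i k * x i k' = 0
  col : ∀ i < m, ∀ i' < m, ∀ k, i ≠ i' → x i k * x i' k = 0
  sum : ∀ i < m, ∑ k ∈ range n, x i k = g.J
  csum : ∀ k < n, ∑ i ∈ range m, x i k = g.J

/-- The operator of the edge from `(i, j)` to `(i, j + 1)`: the token of pigeon `i - 1` is on its way to a hole `≥ j`. -/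
noncomputable def YH (x : ℕ → ℕ → E →ₗ[K] E) (m n i j : ℕ) : E →ₗ[K] E := if 1 ≤ i ∧ i ≤ m then ∑ k ∈ Ico j n, x (i - 1) k else 0

/-- The operator of the edge from `(i, j)` to `(i + 1, j)`: the token of a pigeon below `i` goes down to hole `j - 1`. -/
noncomputable def YV (x : ℕ → ℕ → E →ₗ[K] E) (m n i j : ℕ) : E →ₗ[K] E :=
  if 1 ≤ j ∧ j ≤ n ∧ i ≤ m then ∑ k ∈ range i, x k (j - 1) else 0

/-- The operator of the edge with number `ν` in a grid with `N` columns. -/
noncomputable def YE (x : ℕ → ℕ → E →ₗ[K] E) (m n N ν : ℕ) : E →ₗ[K] E :=
  if ν % 2 = 0 then YH x m n (ν / 2 / N) (ν / 2 % N) else YV x m n (ν / 2 / N) (ν / 2 % N)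

end

end PPh
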