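import Pool.Agent.H94.TG.Sol

/-!
Row TGN (project MP_28250c_TG): the clauses at a vertex, and unsatisfiability.
PROOFS. `mem_asg`: induction on `l`: `a ∈ asg q (e :: l)` iff `a = (e.1, e.2, c) :: a'` with `c < q`, `a' ∈ asg q l`. `net_inc`: unfold `inc`, `net`, `dv`, split the four ifs, `simp`.
`tse_unsat`: given an assignment `α` satisfying all clauses (negate Unsat: every clause contains a literal `l` with `α l.1 = l.2`). For every edge `e` of `edg M N` the
clause `[isv q e 0, .., isv q e (q-1)]` of `exone q e` gives a value `f e < q` with `α (e q + f e) = true` (choose; for other numbers `f e = 0`). For a vertex (i, j) let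
`a := (inc M N i j).map fun e => (e.1, e.2, f e.1)`; all edges of `inc M N i j` are in `edg M N` (check the four cases), `a ∈ asg q (inc ..)` by `mem_asg`. If `net q a ≠ σ i j`
then the clause `a.map fun x => nov q x.1 x.2.2` is in the formula, but all its literals are false under α (`nov q e c = (e q + c, false)`, `α (e q + f e) = true`): contradiction. So
`net q a = σ i j` for all vertices, by `net_inc` this is `dv M N .. i j`, and the total is 0 by `dv_total`: contradiction to `hσ`. `tsb_unsat`: the same with `f e := if α e then 1 else 0`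
(no choice); the literal `(e, decide (c = 0))` is false under α when `c = f e`.
-/

set_option autoImplicit false
open Finset

namespace PPh

open ACpFrege

theorem mem_asg {q : ℕ} {l : List (ℕ × Bool)} {a : List (ℕ × Bool × ℕ)} :
    a ∈ asg q l ↔ (a.map fun x => (x.1, x.2.1)) = l ∧ ∀ x ∈ a, x.2.2 < q := by
  induction l generalizing a with
  | nil =>
    unfold asg
    rw [List.mem_singleton]
    constructor
    · rintro rfl
      exact ⟨rfl, fun x hx => absurd hx List.not_mem_nil⟩
    · rintro ⟨h, _⟩
      exact List.map_eq_nil_iff.1 h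
  | cons e l ih =>
    unfold asg
    rw [List.mem_flatMap]
    constructor
    · rintro ⟨c, hc, h⟩
      rw [List.mem_map] at h
      obtain ⟨a', ha', rfl⟩ := h
      rw [ih] at ha'
      refine ⟨?_, ?_⟩
      · rw [List.map_cons, ha'.1]
      · intro x hx
        rw [List.mem_cons] at hx
        rcases hx with rfl | hx
        · exact List.mem_range.1 hc
        · exact ha'.2 x hx
    · rintro ⟨h1, h2⟩
      cases a with
      | nil => exact absurd h1 (by simp)
      | cons x a' =>
        rw [List.map_cons, List.cons.injEq] at h1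
        refine ⟨x.2.2, List.mem_range.2 (h2 x List.mem_cons_self), ?_⟩
        rw [List.mem_map]
        refine ⟨a', ih.2 ⟨h1.2, fun y hy => h2 y (List.mem_cons_of_mem _ hy)⟩, ?_⟩
        rw [← h1.1]

theorem net_inc (q M N i j : ℕ) (f : ℕ → ℕ) : net q ((inc M N i j).map fun e => (e.1, e.2, f e.1)) =
    dv M N (fun i j => (f (he N i j) : ZMod q)) (fun i j => (f (ve N i j) : ZMod q)) i j := by
  unfold net inc dv
  by_cases h1 : 0 < j <;> by_cases h2 : 0 < i <;> by_cases h3 : j + 1 < N <;> by_cases h4 : i + 1 < M <;>
    simp only [h1, h2, h3, h4, if_true, if_false, List.map_append, List.map_cons, List.map_nil, List.sum_append, List.sum_cons,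
      List.sum_nil, List.nil_append, List.append_nil, Bool.false_eq_true] <;> ring

theorem inc_edg {M N i j : ℕ} (hi : i < M) (hj : j < N) : ∀ e ∈ inc M N i j, e.1 ∈ edg M N := by
  intro e he
  unfold inc at he
  rw [List.mem_append, List.mem_append, List.mem_append] at he
  unfold edg
  rw [List.mem_append]
  rcases he with (he | he) | (he | he)
  · split_ifs at he with h
    · rw [List.mem_singleton] at he
      subst he
      left
      rw [List.mem_flatMap]
      refine ⟨i, List.mem_range.2 hi, ?_⟩
      rw [List.mem_map]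
      exact ⟨j - 1, List.mem_range.2 (by omega), rfl⟩
    · exact absurd he List.not_mem_nil
  · split_ifs at he with h
    · rw [List.mem_singleton] at he
      subst he
      right
      rw [List.mem_flatMap]
      refine ⟨i - 1, List.mem_range.2 (by omega), ?_⟩
      rw [List.mem_map]
      exact ⟨j, List.mem_range.2 hj, rfl⟩
    · exact absurd he List.not_mem_nil
  · split_ifs at he with h
    · rw [List.mem_singleton] at he
      subst he
      left
      rw [List.mem_flatMap]
      refine ⟨i, List.mem_range.2 hi, ?_⟩
      rw [List.mem_map]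
      exact ⟨j, List.mem_range.2 (by omega), rfl⟩
    · exact absurd he List.not_mem_nil
  · split_ifs at he with h
    · rw [List.mem_singleton] at he
      subst he
      right
      rw [List.mem_flatMap]
      refine ⟨i, List.mem_range.2 (by omega), ?_⟩
      rw [List.mem_map]
      exact ⟨j, List.mem_range.2 hj, rfl⟩
    · exact absurd he List.not_mem_nil

theorem tse_unsat {q M N : ℕ} (hq : 2 ≤ q) {σ : ℕ → ℕ → ZMod q} (hσ : ∑ i ∈ range M, ∑ j ∈ range N, σ i j ≠ 0) :
    (tse q M N σ).Unsat := by
  intro α
  by_contra hcon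
  push Not at hcon
  have hf : ∀ e, ∃ c, e ∈ edg M N → c < q ∧ α (e * q + c) = true := by
    intro e
    by_cases he : e ∈ edg M N
    · have h1 : (List.range q).map (isv q e) ∈ tse q M N σ := by
        unfold tse
        rw [List.mem_append]
        left
        rw [List.mem_flatMap]
        refine ⟨e, he, ?_⟩
        unfold exone
        rw [List.mem_append]
        left
        exact List.mem_singleton.2 rfl
      obtain ⟨l, hl, h2⟩ := hcon _ h1
      rw [List.mem_map] at hl
      obtain ⟨c, hc, rfl⟩ := hl
      exact ⟨c, fun _ => ⟨List.mem_range.1 hc, h2⟩⟩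
    · exact ⟨0, fun h => absurd h he⟩
  choose f hf using hf
  refine hσ ?_
  rw [← dv_total M N (fun i j => (f (he N i j) : ZMod q)) (fun i j => (f (ve N i j) : ZMod q))]
  refine Finset.sum_congr rfl fun i hi => Finset.sum_congr rfl fun j hj => ?_
  rw [Finset.mem_range] at hi hj
  rw [← net_inc]
  by_contra hne
  have hmem : ((inc M N i j).map fun e => (e.1, e.2, f e.1)) ∈ asg q (inc M N i j) := by
    rw [mem_asg]
    constructor
    · rw [List.map_map]
      exact List.map_id _
    · intro x hx
      rw [List.mem_map] at hx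
      obtain ⟨e, he, rfl⟩ := hx
      exact (hf e.1 (inc_edg hi hj e he)).1
  have h1 : (((inc M N i j).map fun e => (e.1, e.2, f e.1)).map fun x => nov q x.1 x.2.2) ∈ tse q M N σ := by
    unfold tse
    rw [List.mem_append]
    right
    rw [List.mem_flatMap]
    refine ⟨i, List.mem_range.2 hi, ?_⟩
    rw [List.mem_flatMap]
    refine ⟨j, List.mem_range.2 hj, ?_⟩
    unfold eqc
    rw [List.mem_map]
    refine ⟨_, ?_, rfl⟩
    rw [List.mem_filter]
    exact ⟨hmem, decide_eq_true (fun h => hne h.symm)⟩
  obtain ⟨l, hl, h2⟩ := hcon _ h1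
  rw [List.map_map, List.mem_map] at hl
  obtain ⟨e, he, rfl⟩ := hl
  have h3 := (hf e.1 (inc_edg hi hj e he)).2
  have h4 : α (e.1 * q + f e.1) = false := h2
  rw [h3] at h4
  exact absurd h4 (by decide)

theorem tsb_unsat {M N : ℕ} {σ : ℕ → ℕ → ZMod 2} (hσ : ∑ i ∈ range M, ∑ j ∈ range N, σ i j ≠ 0) : (tsb M N σ).Unsat := by
  intro α
  by_contra hcon
  push Not at hcon
  obtain ⟨f, hfd⟩ : ∃ f : ℕ → ℕ, ∀ e, f e = if α e = true then 1 else 0 := ⟨fun e => if α e = true then 1 else 0, fun e => rfl⟩
  refine hσ ?_
  rw [← dv_total M N (fun i j => (f (he N i j) : ZMod 2)) (fun i j => (f (ve N i j) : ZMod 2))]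
  refine Finset.sum_congr rfl fun i hi => Finset.sum_congr rfl fun j hj => ?_
  rw [Finset.mem_range] at hi hj
  rw [← net_inc]
  by_contra hne
  have hmem : ((inc M N i j).map fun e => (e.1, e.2, f e.1)) ∈ asg 2 (inc M N i j) := by
    rw [mem_asg]
    constructor
    · rw [List.map_map]
      exact List.map_id _
    · intro x hx
      rw [List.mem_map] at hx
      obtain ⟨e, he, rfl⟩ := hx
      show f e.1 < 2
      rw [hfd]
      split_ifs <;> omega
  have h1 : (((inc M N i j).map fun e => (e.1, e.2, f e.1)).map fun x => (x.1, decide (x.2.2 = 0))) ∈ tsb M N σ := by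
    unfold tsb
    rw [List.mem_flatMap]
    refine ⟨i, List.mem_range.2 hi, ?_⟩
    rw [List.mem_flatMap]
    refine ⟨j, List.mem_range.2 hj, ?_⟩
    unfold eqb
    rw [List.mem_map]
    refine ⟨_, ?_, rfl⟩
    rw [List.mem_filter]
    exact ⟨hmem, decide_eq_true (fun h => hne h.symm)⟩
  obtain ⟨l, hl, h2⟩ := hcon _ h1
  rw [List.map_map, List.mem_map] at hl
  obtain ⟨e, he, rfl⟩ := hl
  have h4 : α e.1 = decide (f e.1 = 0) := h2
  rw [hfd] at h4
  cases hα : α e.1
  · rw [hα] at h4
    exact absurd h4 (by decide)
  · rw [hα] at h4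
    exact absurd h4 (by decide)

end PPh
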