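import Pool.Agent.H94.TG.Cls

/-!
Row TGA (project MP_28250c_TG): graded modules for the Tseitin formulas of the grid.
PROOF of `tse_gm`. Let `t := ∑ σ ≠ 0`, `u := (n : ZMod q) - m` (a unit by `hu`), `a := t / u` i.e. `a * u = t` (take `a := t * u⁻¹` with `IsUnit`, or obtain `b` with `u * b = 1`), so `a ≠ 0` and the total of
`chg M N m n a` is `n • a - m • a = u * a = t` (`chg_total`). `τ := σ - chg` has total 0, `flow_sol` gives zh, zv with `dv M N zh zv i j = σ i j - chg M N m n a i j`, so `dv + chg = σ`.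
Take E, g from `hgm`, `h := opm_of g hcl`, x := xop g, and the module
`g.sub (fun v : Fin (2 * M * N * q) => OE g.J x m n N zh zv a (v.1 / q) ((v.1 % q : ℕ) : ZMod q)) ..` (`OE_op`, `OE_sq`): same `J` and `M j`, and `Op' a ≤ Op a` by `Gm.sub_Op_le` (`Submodule.finrank_mono`), so the four
numerical conditions stay. CLAUSES. (1) `exone q ν`, ν ∈ edg M N (so ν < 2 M N): [isv q ν 0, .., isv q ν (q-1)] is of the second kind, sum over c < q of `OE ν c` = J by `wop_sum` (`ZMod q` against `Fin q`/`range q`: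
`Finset.sum_nbij` or: `∑ c : Fin q, f ((c : ℕ) : ZMod q) = ∑ c : ZMod q, f c` by the bijection; q = r + 1 so `ZMod (r+1) = Fin (r+1)` definitionally and `Fin.cast_val_eq_self`); helper85's `exone_ok` (H85/PC/Mat.lean) is
the model. Pairs: first kind with `OE_ne`, casts of c ≠ c' below q differ (`ZMod.natCast_eq_natCast_iff'`, `Nat.mod_eq_of_lt`). (2) `eqc q (inc M N i j) (σ i j)`: clause = `A.map fun x => nov q x.1 x.2.2` with
`A ∈ asg q (inc ..)`, `net q A ≠ σ i j`; first kind: length = length of `inc` ≤ 4, all literals negative, the graded product is `(A.map fun y => OE .. y.1 y.2.2).prod = 0` by `vert_zero` (`mem_asg`; the variable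
`x.1 * q + x.2.2` has quotient x.1 and remainder x.2.2 < q). `tsb_gm`: the same with one variable for every edge, operator `OE ν 1` (q = 2); the literal `(e, decide (c = 0))` has complement `OE e c`:
for c = 1 it is negative, complement X = OE e 1; for c = 0 positive, complement J - X = J - OE e 1 = OE e 0 (q = 2, a ≠ 0 so a = 1, z + 1 ≠ z: `wop_sum` or cases).
-/

set_option autoImplicit false
open Finset

namespace PPh

open ACpFrege

private theorem asm_cast_ne {q c c' : ℕ} (hc : c < q) (hc' : c' < q) (h : c ≠ c') : (c : ZMod q) ≠ (c' : ZMod q) := by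
  intro he
  have := (ZMod.natCast_eq_natCast_iff' c c' q).1 he
  rw [Nat.mod_eq_of_lt hc, Nat.mod_eq_of_lt hc'] at this
  exact h this

private theorem asm_sum {q : ℕ} [NeZero q] {B : Type} [AddCommMonoid B] (f : ZMod q → B) :
    ∑ c : Fin q, f ((c : ℕ) : ZMod q) = ∑ c : ZMod q, f c := by
  obtain ⟨r, rfl⟩ : ∃ r, q = r + 1 := ⟨q - 1, by have := NeZero.ne q; omega⟩
  refine Finset.sum_congr rfl fun c _ => ?_
  congr 1
  exact ZMod.natCast_zmod_val (n := r + 1) c

private theorem asm_edg {M N e : ℕ} (h : e ∈ edg M N) : e < 2 * M * N := by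
  unfold edg he ve at h
  rw [List.mem_append] at h
  rcases h with h | h
  · rw [List.mem_flatMap] at h
    obtain ⟨i, hi, h⟩ := h
    rw [List.mem_map] at h
    obtain ⟨j, hj, rfl⟩ := h
    rw [List.mem_range] at hi hj
    have := idx_lt (q := N) hi (show j < N by omega)
    rw [mul_assoc]
    omega
  · rw [List.mem_flatMap] at h
    obtain ⟨i, hi, h⟩ := h
    rw [List.mem_map] at h
    obtain ⟨j, hj, rfl⟩ := h
    rw [List.mem_range] at hi hj
    have := idx_lt (q := N) (show i < M by omega) hj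
    rw [mul_assoc]
    omega

private theorem asm_inc_len (M N i j : ℕ) : (inc M N i j).length ≤ 4 := by
  unfold inc
  split_ifs <;> simp

section
variable {K : Type} [Field K] {E : Type} [AddCommGroup E] [Module K E]

private theorem asm_lift {V : ℕ} (g : Gm K E V) (F : ℕ × Bool × ℕ → ℕ) (b : ℕ × Bool × ℕ → Bool)
    (G : ℕ × Bool × ℕ → E →ₗ[K] E) (A : List (ℕ × Bool × ℕ))
    (h : ∀ x ∈ A, ∃ hx : F x < V, (if b x then g.J - g.X ⟨F x, hx⟩ else g.X ⟨F x, hx⟩) = G x) :
    ∃ l : List (Fin V × Bool), l.length = A.length ∧ (A.map fun x => (F x, b x)) = l.map (fun i => (i.1.1, i.2)) ∧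
      g.nprod l = (A.map G).prod := by
  induction A with
  | nil => exact ⟨[], rfl, rfl, rfl⟩
  | cons x A ih =>
    obtain ⟨l, h1, h2, h3⟩ := ih fun y hy => h y (List.mem_cons_of_mem _ hy)
    obtain ⟨hx, hG⟩ := h x List.mem_cons_self
    refine ⟨(⟨F x, hx⟩, b x) :: l, by simp [h1], ?_, ?_⟩
    · rw [List.map_cons, List.map_cons, h2]
    · rw [List.map_cons, List.prod_cons, ← h3, ← hG]
      rfl

/-- The values of a flow with the right charges. -/
private theorem asm_flow {q m n M N : ℕ} (hu : IsUnit ((n : ZMod q) - (m : ZMod q)))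
    (hm1 : 1 ≤ m) (hn1 : 1 ≤ n) (hm : m + 2 ≤ M) (hn : n + 2 ≤ N) {σ : ℕ → ℕ → ZMod q}
    (hσ : ∑ i ∈ range M, ∑ j ∈ range N, σ i j ≠ 0) :
    ∃ (a : ZMod q) (zh zv : ℕ → ℕ → ZMod q), a ≠ 0 ∧
      ∀ i < M, ∀ j < N, dv M N zh zv i j + chg M N m n a i j = σ i j := by
  obtain ⟨b, hb⟩ := hu.exists_right_inv
  set t := ∑ i ∈ range M, ∑ j ∈ range N, σ i j with ht
  have hat : ((n : ZMod q) - m) * (b * t) = t := by rw [← mul_assoc, hb, one_mul]
  have htot := chg_total hm hn hm1 hn1 (b * t)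
  rw [nsmul_eq_mul, nsmul_eq_mul, ← sub_mul, hat] at htot
  obtain ⟨zh, zv, hz⟩ := flow_sol (M := M) (N := N) (fun i j => σ i j - chg M N m n (b * t) i j) (by
    simp only [Finset.sum_sub_distrib]
    rw [htot, ← ht, sub_self])
  refine ⟨b * t, zh, zv, ?_, fun i hi j hj => ?_⟩
  · intro h0
    rw [h0, mul_zero] at hat
    exact hσ hat.symm
  · rw [hz i hi j hj, sub_add_cancel]

variable {m n : ℕ}

/-- The graded module for the Tseitin formula modulo `q`. -/
private noncomputable def asm_q (g : Gm K E (m * n)) (h : OPM g (xop g) m n) (q N : ℕ) (zh zv : ℕ → ℕ → ZMod q) (a : ZMod q)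
    (V : ℕ) : Gm K E (V * q) :=
  g.sub (fun v : Fin (V * q) => OE g.J (xop g) m n N zh zv a (v.1 / q) ((v.1 % q : ℕ) : ZMod q)) (fun _ => OE_op h N zh zv a _ _)
    fun _ => OE_sq h N zh zv a _ _

private theorem asm_q_X (g : Gm K E (m * n)) (h : OPM g (xop g) m n) {q : ℕ} (hq : 2 ≤ q) (N : ℕ) (zh zv : ℕ → ℕ → ZMod q)
    (a : ZMod q) {V ν c : ℕ} (hν : ν < V) (hc : c < q) :
    (asm_q g h q N zh zv a V).X ⟨ν * q + c, idx_lt hν hc⟩ = OE g.J (xop g) m n N zh zv a ν (c : ZMod q) := by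
  have h1 : (ν * q + c) / q = ν := by
    rw [Nat.add_div_of_dvd_right (Dvd.intro_left ν rfl), Nat.mul_div_cancel _ (by omega), Nat.div_eq_of_lt hc, add_zero]
  have h2 : (ν * q + c) % q = c := by
    rw [Nat.add_mod, Nat.mul_mod_left, zero_add, Nat.mod_mod, Nat.mod_eq_of_lt hc]
  show OE g.J (xop g) m n N zh zv a ((ν * q + c) / q) (((ν * q + c) % q : ℕ) : ZMod q) = _
  rw [h1, h2]

private theorem asm_exone (g : Gm K E (m * n)) (h : OPM g (xop g) m n) {q : ℕ} (hq : 2 ≤ q) (N : ℕ) (zh zv : ℕ → ℕ → ZMod q)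
    {a : ZMod q} (ha : a ≠ 0) {V ν : ℕ} (hν : ν < V) : ∀ C ∈ exone q ν, (asm_q g h q N zh zv a V).Clw 4 C := by
  intro C hC
  unfold exone at hC
  rcases List.mem_append.1 hC with hC | hC
  · rw [List.mem_singleton] at hC
    subst hC
    refine Or.inr ⟨List.ofFn fun c : Fin q => ⟨ν * q + c, idx_lt hν c.2⟩, ?_, ?_, fun x => ?_⟩
    · rw [List.nodup_ofFn]
      intro c c' hcc
      have : ν * q + (c : ℕ) = ν * q + c' := congrArg Fin.val hcc
      exact Fin.ext (by omega)
    · rw [List.map_ofFn]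
      have : List.range q = List.ofFn fun c : Fin q => (c : ℕ) := by
        rw [List.ofFn_eq_map]
        simp
      rw [this, List.map_ofFn]
      rfl
    · rw [List.map_ofFn, List.sum_ofFn]
      haveI : NeZero q := ⟨by omega⟩
      have h1 : ∀ c : Fin q, ((fun i => ((asm_q g h q N zh zv a V).X i) x) ∘
          fun c : Fin q => (⟨ν * q + c, idx_lt hν c.2⟩ : Fin (V * q))) c =
          OE g.J (xop g) m n N zh zv a ν (((c : ℕ) : ZMod q)) x := by
        intro c
        show ((asm_q g h q N zh zv a V).X ⟨ν * q + c, idx_lt hν c.2⟩) x = _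
        rw [asm_q_X g h hq N zh zv a hν c.2]
      rw [Finset.sum_congr rfl fun c _ => h1 c, asm_sum (fun c : ZMod q => OE g.J (xop g) m n N zh zv a ν c x),
        ← LinearMap.sum_apply]
      show (∑ c : ZMod q, wop g.J _ _ a c) x = _
      rw [wop_sum _ _ _ ha]
      rfl
  · rw [List.mem_flatMap] at hC
    obtain ⟨c', hc', hC⟩ := hC
    rw [List.mem_map] at hC
    obtain ⟨c, hc, rfl⟩ := hC
    rw [List.mem_range] at hc' hc
    refine Or.inl ⟨[(⟨ν * q + c, idx_lt hν (by omega)⟩, false), (⟨ν * q + c', idx_lt hν hc'⟩, false)], by simp, by simp [nov],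
      fun x => ?_⟩
    have h1 := OE_ne h N zh zv a ν (asm_cast_ne (show c < q by omega) hc' (show c ≠ c' by omega))
    have h2 := LinearMap.congr_fun h1 x
    simp only [Gm.nprod, List.map_cons, List.map_nil, List.prod_cons, List.prod_nil, Bool.false_eq_true, if_false, mul_one]
    rw [asm_q_X g h hq N zh zv a hν (by omega), asm_q_X g h hq N zh zv a hν hc']
    exact h2

end

theorem tse_gm {p : ℕ} [Fact p.Prime] {q m n M N L A R del : ℕ} (hq : 2 ≤ q) (hu : IsUnit ((n : ZMod q) - (m : ZMod q)))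
    (hm1 : 1 ≤ m) (hn1 : 1 ≤ n) (hm : m + 2 ≤ M) (hn : n + 2 ≤ N) {σ : ℕ → ℕ → ZMod q}
    (hσ : ∑ i ∈ range M, ∑ j ∈ range N, σ i j ≠ 0) (hgm : HasGm p (m * n) (ofphp m n) L A R del) :
    HasGmW 4 p (2 * M * N * q) (tse q M N σ) L A R del := by
  obtain ⟨a, zh, zv, ha, hz⟩ := asm_flow hu hm1 hn1 hm hn hσ
  obtain ⟨E, h1, h2, h3, g, h4, h5, h6, h7, h8⟩ := hgm
  have h := opm_of g h8
  refine ⟨E, h1, h2, h3, asm_q g h q N zh zv a (2 * M * N), h4, h5, h6, fun b hb => ?_, ?_⟩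
  · exact (Submodule.finrank_mono (g.sub_Op_le _ _ _ b)).trans (h7 b hb)
  intro C hC
  unfold tse at hC
  rcases List.mem_append.1 hC with hC | hC
  · rw [List.mem_flatMap] at hC
    obtain ⟨ν, hν, hC⟩ := hC
    exact asm_exone g h hq N zh zv ha (asm_edg hν) C hC
  · rw [List.mem_flatMap] at hC
    obtain ⟨i, hi, hC⟩ := hC
    rw [List.mem_flatMap] at hC
    obtain ⟨j, hj, hC⟩ := hC
    rw [List.mem_range] at hi hj
    unfold eqc at hC
    rw [List.mem_map] at hC
    obtain ⟨B, hB, rfl⟩ := hC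
    rw [List.mem_filter, decide_eq_true_eq] at hB
    obtain ⟨hB, hne⟩ := hB
    obtain ⟨hB1, hB2⟩ := mem_asg.1 hB
    have hlt : ∀ x ∈ B, x.1 < 2 * M * N := fun x hx => by
      refine asm_edg (inc_edg hi hj (x.1, x.2.1) ?_)
      rw [← hB1]
      exact List.mem_map_of_mem hx
    obtain ⟨l, hl1, hl2, hl3⟩ := asm_lift (asm_q g h q N zh zv a (2 * M * N)) (fun x => x.1 * q + x.2.2) (fun _ => false)
      (fun y => OE g.J (xop g) m n N zh zv a y.1 (y.2.2 : ZMod q)) B (fun x hx =>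
        ⟨idx_lt (hlt x hx) (hB2 x hx), by
          rw [if_neg (by simp), asm_q_X g h hq N zh zv a (hlt x hx) (hB2 x hx)]⟩)
    refine Or.inl ⟨l, ?_, hl2, fun x => ?_⟩
    · have : B.length = (inc M N i j).length := by rw [← hB1, List.length_map]
      rw [hl1, this]
      exact asm_inc_len _ _ _ _
    · rw [hl3, vert_zero h hm1 hn1 hm hn zh zv a hi hj B hB1 (by rw [hz i hi j hj]; exact hne)]
      rfl

theorem tsb_gm {p : ℕ} [Fact p.Prime] {m n M N L A R del : ℕ} (hu : IsUnit ((n : ZMod 2) - (m : ZMod 2)))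
    (hm1 : 1 ≤ m) (hn1 : 1 ≤ n) (hm : m + 2 ≤ M) (hn : n + 2 ≤ N) {σ : ℕ → ℕ → ZMod 2}
    (hσ : ∑ i ∈ range M, ∑ j ∈ range N, σ i j ≠ 0) (hgm : HasGm p (m * n) (ofphp m n) L A R del) :
    HasGmW 4 p (2 * M * N) (tsb M N σ) L A R del := by
  obtain ⟨a, zh, zv, ha, hz⟩ := asm_flow hu hm1 hn1 hm hn hσ
  obtain ⟨E, h1, h2, h3, g, h4, h5, h6, h7, h8⟩ := hgm
  have h := opm_of g h8
  have h10 : ∀ ν : ℕ, OE g.J (xop g) m n N zh zv a ν 0 + OE g.J (xop g) m n N zh zv a ν 1 = g.J := by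
    intro ν
    have := wop_sum g.J (YE (xop g) m n N ν) (zE zh zv N ν) ha
    rw [show (Finset.univ : Finset (ZMod 2)) = {0, 1} from rfl, Finset.sum_pair (by decide)] at this
    exact this
  refine ⟨E, h1, h2, h3, g.sub (fun v : Fin (2 * M * N) => OE g.J (xop g) m n N zh zv a v.1 1) (fun _ => OE_op h N zh zv a _ _)
    (fun _ => OE_sq h N zh zv a _ _), h4, h5, h6, fun b hb => ?_, ?_⟩
  · exact (Submodule.finrank_mono (g.sub_Op_le _ _ _ b)).trans (h7 b hb)
  intro C hC
  unfold tsb at hC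
  rw [List.mem_flatMap] at hC
  obtain ⟨i, hi, hC⟩ := hC
  rw [List.mem_flatMap] at hC
  obtain ⟨j, hj, hC⟩ := hC
  rw [List.mem_range] at hi hj
  unfold eqb at hC
  rw [List.mem_map] at hC
  obtain ⟨B, hB, rfl⟩ := hC
  rw [List.mem_filter, decide_eq_true_eq] at hB
  obtain ⟨hB, hne⟩ := hB
  obtain ⟨hB1, hB2⟩ := mem_asg.1 hB
  have hlt : ∀ x ∈ B, x.1 < 2 * M * N := fun x hx => by
    refine asm_edg (inc_edg hi hj (x.1, x.2.1) ?_)
    rw [← hB1]
    exact List.mem_map_of_mem hx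
  obtain ⟨l, hl1, hl2, hl3⟩ := asm_lift (g.sub (fun v : Fin (2 * M * N) => OE g.J (xop g) m n N zh zv a v.1 1)
      (fun _ => OE_op h N zh zv a _ _) (fun _ => OE_sq h N zh zv a _ _)) (fun x => x.1) (fun x => decide (x.2.2 = 0))
    (fun y => OE g.J (xop g) m n N zh zv a y.1 (y.2.2 : ZMod 2)) B (fun x hx => ⟨hlt x hx, by
      have hx2 := hB2 x hx
      show (if decide (x.2.2 = 0) = true then g.J - OE g.J (xop g) m n N zh zv a x.1 1 else
        OE g.J (xop g) m n N zh zv a x.1 1) = OE g.J (xop g) m n N zh zv a x.1 (x.2.2 : ZMod 2)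
      rcases (show x.2.2 = 0 ∨ x.2.2 = 1 by omega) with h0 | h0
      · rw [if_pos (by simp [h0]), h0, Nat.cast_zero, sub_eq_iff_eq_add, h10]
      · rw [if_neg (by simp [h0]), h0, Nat.cast_one]⟩)
  refine Or.inl ⟨l, ?_, hl2, fun x => ?_⟩
  · have : B.length = (inc M N i j).length := by rw [← hB1, List.length_map]
    rw [hl1, this]
    exact asm_inc_len _ _ _ _
  · rw [hl3, vert_zero h hm1 hn1 hm hn zh zv a hi hj B hB1 (by rw [hz i hi j hj]; exact hne)]
    rfl

end PPh
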