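import Pool.Agent.H94.TG.Sol

/-!
Row TGC (project MP_28250c_TG): the charges of the token flow.
`bh`, `bv`: the values (0 or 1) of the constant edges outside the region (rows 1..m, columns 1..n); `chg` = net inflow of these constants at the vertices
outside the region, 0 inside.
PROOF of `chg_total`: by `dv_total` applied to `bh`, `bv` (as functions into G) the sum of `dv .. bh bv` over ALL vertices is 0, so the sum over the vertices outside the region is minus the sum over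
the region (rows 1..m, columns 1..n, inside the grid because m + 2 ≤ M, n + 2 ≤ N). Inside, at (i, j): `bh i (j-1) = [j = 1]`, `bh i j = 0`, `bv (i-1) j = 0` (i - 1 < m, i-1 ≠ m), `bv i j = [i = m]`, and
all four edges exist: `dv = [j = 1] c - [i = m] c`. Sum over the region: `(m - n) c` (m rows contribute at j = 1, n columns at i = m). So the total of `chg` is `n • c - m • c`.
-/

set_option autoImplicit false
open Finset

namespace PPh

variable {G : Type} [AddCommGroup G]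

/-- The horizontal constants (times `c`). -/
def bh (m : ℕ) (c : G) (i j : ℕ) : G := if 1 ≤ i ∧ i ≤ m ∧ j = 0 then c else 0

/-- The vertical constants (times `c`). -/
def bv (m n : ℕ) (c : G) (i j : ℕ) : G := if 1 ≤ j ∧ j ≤ n ∧ i = m then c else 0

/-- The charges of the flow. -/
def chg (M N m n : ℕ) (c : G) (i j : ℕ) : G :=
  if 1 ≤ i ∧ i ≤ m ∧ 1 ≤ j ∧ j ≤ n then 0 else dv M N (bh m c) (bv m n c) i j

private theorem Chg_in {M N m n : ℕ} (hm : m + 2 ≤ M) (hn : n + 2 ≤ N) (c : G) (i j : ℕ)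
    (h : 1 ≤ i ∧ i ≤ m ∧ 1 ≤ j ∧ j ≤ n) :
    dv M N (bh m c) (bv m n c) i j = (if j = 1 then c else 0) - (if i = m then c else 0) := by
  obtain ⟨h1, h2, h3, h4⟩ := h
  have e1 : (0 : ℕ) < j := h3
  have e2 : (0 : ℕ) < i := h1
  have e3 : j + 1 < N := by omega
  have e4 : i + 1 < M := by omega
  have a1 : bh m c i (j - 1) = if j = 1 then c else 0 := by
    unfold bh
    by_cases hj : j = 1
    · rw [if_pos ⟨h1, h2, by omega⟩, if_pos hj]
    · rw [if_neg (fun hh => hj (by omega)), if_neg hj]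
  have a2 : bv m n c (i - 1) j = 0 := by
    unfold bv
    rw [if_neg (fun hh => by omega)]
  have a3 : bh m c i j = 0 := by
    unfold bh
    rw [if_neg (fun hh => by omega)]
  have a4 : bv m n c i j = if i = m then c else 0 := by
    unfold bv
    by_cases hi : i = m
    · rw [if_pos ⟨h3, h4, hi⟩, if_pos hi]
    · rw [if_neg (fun hh => hi hh.2.2), if_neg hi]
  unfold dv
  rw [if_pos e1, if_pos e2, if_pos e3, if_pos e4, a1, a2, a3, a4, add_zero, zero_add]

private theorem Chg_cnt (K k : ℕ) (hk : k + 2 ≤ K) (c : G) :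
    ∑ i ∈ range K, (if 1 ≤ i ∧ i ≤ k then c else 0) = k • c := by
  rw [← Finset.sum_filter, Finset.sum_const]
  have : (range K).filter (fun i => 1 ≤ i ∧ i ≤ k) = Icc 1 k := by
    ext i
    simp only [mem_filter, mem_range, mem_Icc]
    omega
  rw [this, Nat.card_Icc]
  simp

private theorem Chg_s1 {M N m n : ℕ} (hm : m + 2 ≤ M) (hn : n + 2 ≤ N) (hn1 : 1 ≤ n) (c : G) :
    ∑ i ∈ range M, ∑ j ∈ range N, (if 1 ≤ i ∧ i ≤ m ∧ 1 ≤ j ∧ j ≤ n then (if j = 1 then c else 0) else 0) = m • c := by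
  rw [← Chg_cnt M m hm c]
  refine Finset.sum_congr rfl fun i _ => ?_
  have : ∀ j ∈ range N, (if 1 ≤ i ∧ i ≤ m ∧ 1 ≤ j ∧ j ≤ n then (if j = 1 then c else 0) else 0) =
      if j = 1 then (if 1 ≤ i ∧ i ≤ m then c else 0) else 0 := by
    intro j _
    by_cases hj : j = 1
    · subst hj
      by_cases hi : 1 ≤ i ∧ i ≤ m
      · rw [if_pos ⟨hi.1, hi.2, le_refl 1, hn1⟩, if_pos rfl, if_pos rfl, if_pos hi]
      · rw [if_neg (fun hh => hi ⟨hh.1, hh.2.1⟩), if_pos rfl, if_neg hi]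
    · rw [if_neg hj, if_neg hj]
      split <;> rfl
  rw [Finset.sum_congr rfl this, Finset.sum_ite_eq', if_pos (mem_range.mpr (by omega))]

private theorem Chg_s2 {M N m n : ℕ} (hm : m + 2 ≤ M) (hn : n + 2 ≤ N) (hm1 : 1 ≤ m) (c : G) :
    ∑ i ∈ range M, ∑ j ∈ range N, (if 1 ≤ i ∧ i ≤ m ∧ 1 ≤ j ∧ j ≤ n then (if i = m then c else 0) else 0) = n • c := by
  rw [Finset.sum_comm, ← Chg_cnt N n hn c]
  refine Finset.sum_congr rfl fun j _ => ?_
  have : ∀ i ∈ range M, (if 1 ≤ i ∧ i ≤ m ∧ 1 ≤ j ∧ j ≤ n then (if i = m then c else 0) else 0) =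
      if i = m then (if 1 ≤ j ∧ j ≤ n then c else 0) else 0 := by
    intro i _
    by_cases hi : i = m
    · subst hi
      by_cases hj : 1 ≤ j ∧ j ≤ n
      · rw [if_pos ⟨hm1, le_refl _, hj.1, hj.2⟩, if_pos rfl, if_pos rfl, if_pos hj]
      · rw [if_neg (fun hh => hj ⟨hh.2.2.1, hh.2.2.2⟩), if_pos rfl, if_neg hj]
    · rw [if_neg hi, if_neg hi]
      split <;> rfl
  rw [Finset.sum_congr rfl this, Finset.sum_ite_eq', if_pos (mem_range.mpr (by omega))]

theorem chg_total {M N m n : ℕ} (hm : m + 2 ≤ M) (hn : n + 2 ≤ N) (hm1 : 1 ≤ m) (hn1 : 1 ≤ n) (c : G) :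
    ∑ i ∈ range M, ∑ j ∈ range N, chg M N m n c i j = n • c - m • c := by
  have h0 := dv_total M N (bh m c) (bv m n c)
  have h1 : ∀ i ∈ range M, ∀ j ∈ range N, dv M N (bh m c) (bv m n c) i j =
      chg M N m n c i j + ((if 1 ≤ i ∧ i ≤ m ∧ 1 ≤ j ∧ j ≤ n then (if j = 1 then c else 0) else 0) -
        (if 1 ≤ i ∧ i ≤ m ∧ 1 ≤ j ∧ j ≤ n then (if i = m then c else 0) else 0)) := by
    intro i _ j _
    unfold chg
    by_cases h : 1 ≤ i ∧ i ≤ m ∧ 1 ≤ j ∧ j ≤ n
    · rw [if_pos h, if_pos h, if_pos h, zero_add, Chg_in hm hn c i j h]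
    · rw [if_neg h, if_neg h, if_neg h, sub_zero, add_zero]
  rw [Finset.sum_congr rfl fun i hi => Finset.sum_congr rfl fun j hj => h1 i hi j hj] at h0
  simp only [Finset.sum_add_distrib, Finset.sum_sub_distrib] at h0
  rw [Chg_s1 hm hn hn1 c, Chg_s2 hm hn hm1 c] at h0
  rw [eq_neg_of_add_eq_zero_left h0, neg_sub]

end PPh
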