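import Pool.Agent.H85.PC.Rank
import Pool.Agent.H94.TG.Defs

/-!
Row TGO (project MP_28250c_TG): the operators of the edges.
PROOFS. `opm_of`: helper85's `fpm_of` (H85/PC/Rank.lean) gives op, sq, row, col, sum; `csum` in the same way from the clause
`(List.range m).map fun i => (i * n + j, true)` of `ofphp m n` (its proof of `sum` is the model: the alternative `Or.inl` of `Gm.Cl` is impossible as the literals have the wrong
sign; if m = 0 the clause is empty: then the second alternative with `l = []`; note the case of an empty clause: `C = []` cannot be a two-element list either).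
`YH_sq`, `YV_sq`: a sum of operators with `x * x = J x` and pairwise products 0 (`Finset.sum_mul_sum`, `Finset.sum_eq_single` as in helper85's `FPM.psum_sq`). `YH_step`: for
1 ≤ i ≤ m, 1 ≤ j ≤ n: `∑_(Ico (j-1) n) = x (i-1) (j-1) + ∑_(Ico j n)` (`Finset.sum_eq_sum_Ico_succ_bot`). `YV_step`: `Finset.sum_range_succ` with `i = (i-1) + 1`. `xYH`: `x (i-1) (j-1) * ∑_(k ∈ Ico j n) x (i-1) k`:
every product is 0 by `row` as `k ≥ j > j - 1`. `xYV`: every `x (i-1) (j-1) * x k (j-1)`, `k < i - 1`, is 0 by `col`. `YH_const`: unfold: (i out of range: 0) or (j = 0: `∑_(Ico 0 n) = ∑_(range n) = J` by `sum`)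
or (n ≤ j: empty). `YV_const`: (j out of range or i > m: 0), (i = 0: empty sum), (i = m: `csum`).
-/

set_option autoImplicit false
open Finset

namespace PPh

open ACpFrege

section
variable {K : Type} [Field K] {E : Type} [AddCommGroup E] [Module K E]

private theorem Opm_csum {m n : ℕ} (g : Gm K E (m * n)) (hcl : ∀ C ∈ ofphp m n, g.Cl C) (k : ℕ) (hk : k < n) :
    ∑ i ∈ range m, xop g i k = g.J := by
  have hC : ((List.range m).map fun i => ((i * n + k, true) : Lit)) ∈ ofphp m n := by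
    unfold ofphp
    exact List.mem_append_right _ (List.mem_append_left _ (List.mem_map.2 ⟨k, List.mem_range.2 hk, rfl⟩))
  rcases hcl _ hC with ⟨a, b, h1, h2⟩ | ⟨l, -, h1, h2⟩
  · exfalso
    have h3 : (((List.range m).map fun i => ((i * n + k, true) : Lit)).map Prod.snd) = [false, false] := by rw [h1]; rfl
    rw [List.map_map] at h3
    have h4 : ∀ b ∈ (List.range m).map (Prod.snd ∘ fun i => ((i * n + k, true) : Lit)), b = true := by
      intro b hb
      obtain ⟨j, _, rfl⟩ := List.mem_map.1 hb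
      rfl
    rw [h3] at h4
    exact absurd (h4 false (by simp)) (by simp)
  · have h3 : l.map Fin.val = (List.range m).map fun i => i * n + k := by
      have := congrArg (List.map Prod.fst) h1
      rw [List.map_map, List.map_map] at this
      exact this.symm
    have hlen : l.length = m := by
      have := congrArg List.length h3
      simpa using this
    refine LinearMap.ext fun e => ?_
    rw [← h2 e, LinearMap.sum_apply, Finset.sum_range]
    have h5 : (l.map fun i => g.X i e) = List.ofFn fun i : Fin m => xop g i k e := by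
      refine List.ext_getElem (by simp [hlen]) fun t ht1 ht2 => ?_
      rw [List.length_map] at ht1
      rw [List.getElem_map, List.getElem_ofFn]
      have h6 : (l[t]).val = t * n + k := by
        have e1 : (l.map Fin.val)[t]'(by simpa using ht1) = (l[t]).val := by simp
        rw [← e1]
        simp [h3]
      unfold xop
      rw [dif_pos ⟨by omega, hk⟩]
      congr 2
      exact Fin.ext h6
    rw [h5, List.sum_ofFn]

theorem opm_of {m n : ℕ} (g : Gm K E (m * n)) (hcl : ∀ C ∈ ofphp m n, g.Cl C) : OPM g (xop g) m n := by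
  have h := fpm_of g hcl
  exact ⟨h.op, h.sq, h.row, h.col, h.sum, Opm_csum g hcl⟩

variable {n₀ : ℕ} {g : Gm K E n₀} {x : ℕ → ℕ → E →ₗ[K] E} {m n : ℕ}

theorem YH_op (h : OPM g x m n) (i j : ℕ) : YH x m n i j ∈ g.Op 1 := by
  unfold YH
  split_ifs
  · exact Submodule.sum_mem _ fun k _ => h.op _ _
  · exact Submodule.zero_mem _

theorem YV_op (h : OPM g x m n) (i j : ℕ) : YV x m n i j ∈ g.Op 1 := by
  unfold YV
  split_ifs
  · exact Submodule.sum_mem _ fun k _ => h.op _ _
  · exact Submodule.zero_mem _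

private theorem Opm_sq {s : Finset ℕ} {y : ℕ → E →ₗ[K] E} (hsq : ∀ a ∈ s, y a * y a = g.J * y a)
    (h0 : ∀ a ∈ s, ∀ b ∈ s, a ≠ b → y a * y b = 0) : (∑ a ∈ s, y a) * ∑ a ∈ s, y a = g.J * ∑ a ∈ s, y a := by
  rw [Finset.sum_mul_sum, Finset.mul_sum]
  refine Finset.sum_congr rfl fun a ha => ?_
  rw [Finset.sum_eq_single a (fun b hb hba => h0 a ha b hb (Ne.symm hba)) (fun hn => absurd ha hn)]
  exact hsq a ha

theorem YH_sq (h : OPM g x m n) (i j : ℕ) : YH x m n i j * YH x m n i j = g.J * YH x m n i j := by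
  unfold YH
  split_ifs with hi
  · exact Opm_sq (fun a _ => h.sq _ _) (fun a _ b _ hab => h.row (i - 1) (by omega) a b hab)
  · simp

theorem YV_sq (h : OPM g x m n) (i j : ℕ) : YV x m n i j * YV x m n i j = g.J * YV x m n i j := by
  unfold YV
  split_ifs with hi
  · refine Opm_sq (y := fun k => x k (j - 1)) (fun a _ => h.sq _ _) (fun a ha b hb hab => h.col a ?_ b ?_ (j - 1) hab)
    · have := mem_range.1 ha
      omega
    · have := mem_range.1 hb
      omega
  · simp

theorem YH_step {i j : ℕ} (hi : 1 ≤ i) (hi' : i ≤ m) (hj : 1 ≤ j) (hj' : j ≤ n) :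
    YH x m n i (j - 1) = YH x m n i j + x (i - 1) (j - 1) := by
  unfold YH
  rw [if_pos ⟨hi, hi'⟩, if_pos ⟨hi, hi'⟩, Finset.sum_eq_sum_Ico_succ_bot (by omega), add_comm, Nat.sub_add_cancel hj]

theorem YV_step {i j : ℕ} (hi : 1 ≤ i) (hi' : i ≤ m) (hj : 1 ≤ j) (hj' : j ≤ n) :
    YV x m n i j = YV x m n (i - 1) j + x (i - 1) (j - 1) := by
  unfold YV
  rw [if_pos ⟨hj, hj', hi'⟩, if_pos ⟨hj, hj', by omega⟩]
  obtain ⟨i, rfl⟩ := Nat.exists_eq_add_of_le hi
  rw [Nat.add_comm 1 i, Nat.add_sub_cancel, Finset.sum_range_succ]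

theorem xYH (h : OPM g x m n) {i j : ℕ} (hi : 1 ≤ i) (hi' : i ≤ m) (hj : 1 ≤ j) : x (i - 1) (j - 1) * YH x m n i j = 0 := by
  unfold YH
  rw [if_pos ⟨hi, hi'⟩, Finset.mul_sum]
  refine Finset.sum_eq_zero fun k hk => h.row (i - 1) (by omega) _ _ ?_
  have := (mem_Ico.1 hk).1
  omega

theorem xYV (h : OPM g x m n) {i j : ℕ} (hi : 1 ≤ i) (hi' : i ≤ m) : x (i - 1) (j - 1) * YV x m n (i - 1) j = 0 := by
  unfold YV
  split_ifs with hc
  · rw [Finset.mul_sum]
    refine Finset.sum_eq_zero fun k hk => ?_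
    have := mem_range.1 hk
    exact h.col (i - 1) (by omega) k (by omega) _ (by omega)
  · simp

/-- Outside the region the horizontal operators are constant. -/
theorem YH_const (h : OPM g x m n) {i j : ℕ} (hij : ¬ (1 ≤ i ∧ i ≤ m) ∨ j = 0 ∨ n ≤ j) (hn : 1 ≤ n) :
    YH x m n i j = if 1 ≤ i ∧ i ≤ m ∧ j = 0 then g.J else 0 := by
  unfold YH
  by_cases hi : 1 ≤ i ∧ i ≤ m
  · rw [if_pos hi]
    by_cases hj : j = 0
    · rw [if_pos ⟨hi.1, hi.2, hj⟩, hj, ← Finset.range_eq_Ico]
      exact h.sum (i - 1) (by omega)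
    · rw [if_neg (fun hc => hj hc.2.2), Finset.Ico_eq_empty (by omega), Finset.sum_empty]
  · rw [if_neg hi, if_neg (fun hc => hi ⟨hc.1, hc.2.1⟩)]

/-- Outside the region the vertical operators are constant. -/
theorem YV_const (h : OPM g x m n) {i j : ℕ} (hij : ¬ (1 ≤ j ∧ j ≤ n) ∨ i = 0 ∨ m ≤ i) (hm : 1 ≤ m) :
    YV x m n i j = if 1 ≤ j ∧ j ≤ n ∧ i = m then g.J else 0 := by
  unfold YV
  by_cases hj : 1 ≤ j ∧ j ≤ n
  · by_cases hi : i = m
    · rw [if_pos ⟨hj.1, hj.2, hi.le⟩, if_pos ⟨hj.1, hj.2, hi⟩, hi]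
      exact h.csum (j - 1) (by omega)
    · rw [if_neg (c := 1 ≤ j ∧ j ≤ n ∧ i = m) (fun hc => hi hc.2.2)]
      split_ifs with hc
      · have h0 : i = 0 := by omega
        rw [h0, Finset.sum_range_zero]
      · rfl
  · rw [if_neg (fun hc => hj ⟨hc.1, hc.2.1⟩), if_neg (fun hc => hj ⟨hc.1, hc.2.1⟩)]

end

end PPh
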