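import Pool.Agent.H94.TG.Ring
import Pool.Agent.H94.TG.Net
import Pool.Agent.H94.TG.Opm
import Pool.Agent.H94.TG.Chg

/-!
Row TGK (project MP_28250c_TG): the clauses at the vertices have vanishing graded products.
Setting: `h : OPM g x m n`, region inside the grid (`m + 2 ≤ M`, `n + 2 ≤ N`), `a : ZMod q`, values `zh`, `zv` of the edges without tokens. `OE .. ν c` is the operator saying that
the edge number `ν` has the value `c`.
PROOF of `vert_zero` (list `A` of (edge, direction, value) with edges `inc M N i j`, values arbitrary, net value different from `dv zh zv + chg a`): write A = the list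
`(inc M N i j).map ..` of its values. CASE inside (1 ≤ i ≤ m, 1 ≤ j ≤ n): then 0 < j, 0 < i, j + 1 < N, i + 1 < M, so `inc` has exactly the four edges left, top, right, bottom with operators `YH i (j-1)`,
`YV (i-1) j`, `YH i j`, `YV i j` (`YE` of `he`/`ve`: `YE_he`, `YE_ve`); `YH_step`, `YV_step`, `xYH`, `xYV`, `YH_sq`, `YV_sq`, `h.sq`, and `vert_ring` in the commutative ring `g.alg` (lift the operators with
`g.up`, as in helper85's `step_end`), `chg = 0`. CASE outside: every edge at (i, j) has a constant operator: `YH_const`, `YV_const` apply to each (left edge (i, j-1): if 1 ≤ i ≤ m then j = 0 (no left edge),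
or j > n so n ≤ j - 1, or j - 1 = 0 would mean j = 1 ≤ n inside; similarly the others), with value `b ∈ {0, 1}` times J where `b c = bh m c i j` resp. `bv m n c i j` for every c. If all values of A were
`z + b a` then the net value would be `dv zh zv i j + dv (bh a) (bv a) i j = dv zh zv i j + chg a i j`, excluded. So some value differs from `z + b a` and its factor is 0 (`wop_zero` for b = 0, `wop_one` for
b = 1), hence the product is 0 (`List.prod_eq_zero` is for rings without order: the factor 0 is in the list, `List.prod_eq_zero` holds in any MonoidWithZero).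
-/

set_option autoImplicit false
open Finset

namespace PPh

open ACpFrege

section
variable {K : Type} [Field K] {E : Type} [AddCommGroup E] [Module K E] {n₀ : ℕ}

/-- The value without token of the edge with number `ν`. -/
def zE {q : ℕ} (zh zv : ℕ → ℕ → ZMod q) (N ν : ℕ) : ZMod q := if ν % 2 = 0 then zh (ν / 2 / N) (ν / 2 % N) else zv (ν / 2 / N) (ν / 2 % N)

/-- The operator which says that the edge number `ν` has the value `c`. -/
noncomputable def OE {q : ℕ} (J : E →ₗ[K] E) (x : ℕ → ℕ → E →ₗ[K] E) (m n N : ℕ) (zh zv : ℕ → ℕ → ZMod q) (a : ZMod q) (ν : ℕ) (c : ZMod q) :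
    E →ₗ[K] E := wop J (YE x m n N ν) (zE zh zv N ν) a c

private theorem Cls_he {N i j : ℕ} (hj : j < N) : he N i j % 2 = 0 ∧ he N i j / 2 / N = i ∧ he N i j / 2 % N = j := by
  have h2 : he N i j / 2 = i * N + j := by unfold he; omega
  refine ⟨by unfold he; omega, ?_, ?_⟩
  · rw [h2, Nat.add_comm, Nat.add_mul_div_right _ _ (by omega), Nat.div_eq_of_lt hj, Nat.zero_add]
  · rw [h2, Nat.add_comm, Nat.add_mul_mod_self_right, Nat.mod_eq_of_lt hj]

private theorem Cls_ve {N i j : ℕ} (hj : j < N) : ¬ ve N i j % 2 = 0 ∧ ve N i j / 2 / N = i ∧ ve N i j / 2 % N = j := by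
  have h2 : ve N i j / 2 = i * N + j := by unfold ve; omega
  refine ⟨by unfold ve; omega, ?_, ?_⟩
  · rw [h2, Nat.add_comm, Nat.add_mul_div_right _ _ (by omega), Nat.div_eq_of_lt hj, Nat.zero_add]
  · rw [h2, Nat.add_comm, Nat.add_mul_mod_self_right, Nat.mod_eq_of_lt hj]

theorem YE_he (x : ℕ → ℕ → E →ₗ[K] E) {m n N i j : ℕ} (hj : j < N) : YE x m n N (he N i j) = YH x m n i j := by
  obtain ⟨h1, h2, h3⟩ := Cls_he (i := i) hj
  unfold YE
  rw [if_pos h1, h2, h3]

theorem YE_ve (x : ℕ → ℕ → E →ₗ[K] E) {m n N i j : ℕ} (hj : j < N) : YE x m n N (ve N i j) = YV x m n i j := by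
  obtain ⟨h1, h2, h3⟩ := Cls_ve (i := i) hj
  unfold YE
  rw [if_neg h1, h2, h3]

theorem zE_he {q : ℕ} (zh zv : ℕ → ℕ → ZMod q) {N i j : ℕ} (hj : j < N) : zE zh zv N (he N i j) = zh i j := by
  obtain ⟨h1, h2, h3⟩ := Cls_he (i := i) hj
  unfold zE
  rw [if_pos h1, h2, h3]

theorem zE_ve {q : ℕ} (zh zv : ℕ → ℕ → ZMod q) {N i j : ℕ} (hj : j < N) : zE zh zv N (ve N i j) = zv i j := by
  obtain ⟨h1, h2, h3⟩ := Cls_ve (i := i) hj
  unfold zE
  rw [if_neg h1, h2, h3]

theorem YE_op {g : Gm K E n₀} {x : ℕ → ℕ → E →ₗ[K] E} {m n : ℕ} (h : OPM g x m n) (N ν : ℕ) : YE x m n N ν ∈ g.Op 1 := by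
  unfold YE
  split_ifs
  · exact YH_op h _ _
  · exact YV_op h _ _

theorem YE_sq {g : Gm K E n₀} {x : ℕ → ℕ → E →ₗ[K] E} {m n : ℕ} (h : OPM g x m n) (N ν : ℕ) :
    YE x m n N ν * YE x m n N ν = g.J * YE x m n N ν := by
  unfold YE
  split_ifs
  · exact YH_sq h _ _
  · exact YV_sq h _ _

private theorem Cls_wop {q : ℕ} (g : Gm K E n₀) {Y : E →ₗ[K] E} (hY : Y ∈ g.Op 1) (z a c : ZMod q) :
    ((wop (g.up g.J g.Op_one_J) (g.up Y hY) z a c : g.alg) : E →ₗ[K] E) = wop g.J Y z a c := by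
  unfold wop
  split_ifs <;> rfl

theorem OE_op {q : ℕ} {g : Gm K E n₀} {x : ℕ → ℕ → E →ₗ[K] E} {m n : ℕ} (h : OPM g x m n) (N : ℕ) (zh zv : ℕ → ℕ → ZMod q)
    (a : ZMod q) (ν : ℕ) (c : ZMod q) : OE g.J x m n N zh zv a ν c ∈ g.Op 1 := by
  unfold OE wop
  split_ifs
  · exact Submodule.sub_mem _ g.Op_one_J (YE_op h N ν)
  · exact YE_op h N ν
  · exact Submodule.zero_mem _

theorem OE_sq {q : ℕ} {g : Gm K E n₀} {x : ℕ → ℕ → E →ₗ[K] E} {m n : ℕ} (h : OPM g x m n) (N : ℕ) (zh zv : ℕ → ℕ → ZMod q)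
    (a : ZMod q) (ν : ℕ) (c : ZMod q) :
    OE g.J x m n N zh zv a ν c * OE g.J x m n N zh zv a ν c = g.J * OE g.J x m n N zh zv a ν c := by
  have h1 : g.up _ (YE_op h N ν) * g.up _ (YE_op h N ν) = g.up g.J g.Op_one_J * g.up _ (YE_op h N ν) :=
    Subtype.ext (YE_sq h N ν)
  unfold OE
  rw [← Cls_wop g (YE_op h N ν)]
  exact congrArg Subtype.val (wop_idem h1 _ _ _)

theorem OE_ne {q : ℕ} {g : Gm K E n₀} {x : ℕ → ℕ → E →ₗ[K] E} {m n : ℕ} (h : OPM g x m n) (N : ℕ) (zh zv : ℕ → ℕ → ZMod q)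
    (a : ZMod q) (ν : ℕ) {c c' : ZMod q} (hc : c ≠ c') : OE g.J x m n N zh zv a ν c * OE g.J x m n N zh zv a ν c' = 0 := by
  have h1 : g.up _ (YE_op h N ν) * g.up _ (YE_op h N ν) = g.up g.J g.Op_one_J * g.up _ (YE_op h N ν) :=
    Subtype.ext (YE_sq h N ν)
  unfold OE
  rw [← Cls_wop g (YE_op h N ν), ← Cls_wop g (YE_op h N ν)]
  exact congrArg Subtype.val (wop_ne h1 _ _ hc)

private theorem Cls_vert {q : ℕ} {g : Gm K E n₀} {X H V : E →ₗ[K] E} (hXo : X ∈ g.Op 1) (hHo : H ∈ g.Op 1) (hVo : V ∈ g.Op 1)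
    (hX : X * X = g.J * X) (hH : H * H = g.J * H) (hV : V * V = g.J * V) (hXH : X * H = 0) (hXV : X * V = 0)
    {a z1 z2 z3 z4 c1 c2 c3 c4 : ZMod q} (hc : (c1 + c2) - (c3 + c4) ≠ (z1 + z2) - (z3 + z4)) :
    wop g.J (H + X) z1 a c1 * (wop g.J V z2 a c2 * (wop g.J H z3 a c3 * wop g.J (V + X) z4 a c4)) = 0 := by
  have h : wop (g.up g.J g.Op_one_J) (g.up (H + X) (Submodule.add_mem _ hHo hXo)) z1 a c1 *
      (wop (g.up g.J g.Op_one_J) (g.up V hVo) z2 a c2 * (wop (g.up g.J g.Op_one_J) (g.up H hHo) z3 a c3 *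
        wop (g.up g.J g.Op_one_J) (g.up (V + X) (Submodule.add_mem _ hVo hXo)) z4 a c4)) = 0 :=
    vert_ring (J := g.up g.J g.Op_one_J) (X := g.up X hXo) (H := g.up H hHo) (V := g.up V hVo)
    (Subtype.ext hX) (Subtype.ext hH) (Subtype.ext hV) (Subtype.ext hXH) (Subtype.ext hXV) (a := a) hc
  rw [← Cls_wop g (Submodule.add_mem _ hHo hXo), ← Cls_wop g hVo, ← Cls_wop g hHo, ← Cls_wop g (Submodule.add_mem _ hVo hXo)]
  exact congrArg Subtype.val h

private theorem Cls_net {q : ℕ} (val : ℕ → ZMod q) (A : List (ℕ × Bool × ℕ)) (hA : ∀ y ∈ A, (y.2.2 : ZMod q) = val y.1) :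
    net q A = ((A.map fun x => (x.1, x.2.1)).map fun e => if e.2 then val e.1 else -val e.1).sum := by
  unfold net
  rw [List.map_map]
  refine congrArg List.sum (List.map_congr_left ?_)
  intro y hy
  show (if y.2.1 then (y.2.2 : ZMod q) else -(y.2.2 : ZMod q)) = if y.2.1 then val y.1 else -val y.1
  rw [hA y hy]

private theorem Cls_dv {q : ℕ} (h v : ℕ → ℕ → ZMod q) {M N i j : ℕ} (hj : j < N) :
    ((inc M N i j).map fun e => if e.2 then zE h v N e.1 else -zE h v N e.1).sum = dv M N h v i j := by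
  have hj' : j - 1 < N := by omega
  unfold inc dv
  split_ifs <;> simp [zE_he, zE_ve, hj, hj'] <;> ring

private theorem Cls_wz {q : ℕ} {J Y : E →ₗ[K] E} {P : Prop} [Decidable P] (hY : Y = if P then J else 0) {z a c : ZMod q}
    (hc : c ≠ z + if P then a else 0) : wop J Y z a c = 0 := by
  by_cases hP : P
  · rw [if_pos hP] at hY hc
    rw [hY]
    exact wop_one J hc
  · rw [if_neg hP] at hY hc
    rw [hY]
    exact wop_zero J (by simpa using hc)

private theorem Cls_out {q : ℕ} {g : Gm K E n₀} {x : ℕ → ℕ → E →ₗ[K] E} {m n M N : ℕ} (h : OPM g x m n) (hm1 : 1 ≤ m) (hn1 : 1 ≤ n)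
    (zh zv : ℕ → ℕ → ZMod q) (a : ZMod q) {i j : ℕ} (hj : j < N)
    (hout : ¬ (1 ≤ i ∧ i ≤ m ∧ 1 ≤ j ∧ j ≤ n)) {e : ℕ × Bool} (he' : e ∈ inc M N i j) {c : ZMod q}
    (hc : c ≠ zE (fun i j => zh i j + bh m a i j) (fun i j => zv i j + bv m n a i j) N e.1) :
    OE g.J x m n N zh zv a e.1 c = 0 := by
  have hj' : j - 1 < N := by omega
  unfold inc at he'
  unfold OE
  rcases List.mem_append.1 he' with h1 | h1
  · rcases List.mem_append.1 h1 with h2 | h2
    · split_ifs at h2 with h3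
      · rw [List.mem_singleton] at h2
        subst h2
        simp only [zE_he _ _ hj'] at hc ⊢
        rw [YE_he x hj']
        exact Cls_wz (YH_const h (by omega) hn1) hc
      · simp at h2
    · split_ifs at h2 with h3
      · rw [List.mem_singleton] at h2
        subst h2
        simp only [zE_ve _ _ hj] at hc ⊢
        rw [YE_ve x hj]
        exact Cls_wz (YV_const h (by omega) hm1) hc
      · simp at h2
  · rcases List.mem_append.1 h1 with h2 | h2
    · split_ifs at h2 with h3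
      · rw [List.mem_singleton] at h2
        subst h2
        simp only [zE_he _ _ hj] at hc ⊢
        rw [YE_he x hj]
        exact Cls_wz (YH_const h (by omega) hn1) hc
      · simp at h2
    · split_ifs at h2 with h3
      · rw [List.mem_singleton] at h2
        subst h2
        simp only [zE_ve _ _ hj] at hc ⊢
        rw [YE_ve x hj]
        exact Cls_wz (YV_const h (by omega) hm1) hc
      · simp at h2

theorem vert_zero {q : ℕ} {g : Gm K E n₀} {x : ℕ → ℕ → E →ₗ[K] E} {m n M N : ℕ} (h : OPM g x m n) (hm1 : 1 ≤ m) (hn1 : 1 ≤ n)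
    (hm : m + 2 ≤ M) (hn : n + 2 ≤ N) (zh zv : ℕ → ℕ → ZMod q) (a : ZMod q) {i j : ℕ} (hi : i < M) (hj : j < N)
    (A : List (ℕ × Bool × ℕ)) (hA : (A.map fun x => (x.1, x.2.1)) = inc M N i j)
    (hne : net q A ≠ dv M N zh zv i j + chg M N m n a i j) :
    (A.map fun y => OE g.J x m n N zh zv a y.1 (y.2.2 : ZMod q)).prod = 0 := by
  have hj' : j - 1 < N := by omega
  by_cases hin : 1 ≤ i ∧ i ≤ m ∧ 1 ≤ j ∧ j ≤ n
  · obtain ⟨i1, i2, j1, j2⟩ := id hin
    have hinc : inc M N i j = [(he N i (j - 1), true), (ve N (i - 1) j, true), (he N i j, false), (ve N i j, false)] := by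
      unfold inc
      rw [if_pos (by omega), if_pos (by omega), if_pos (by omega), if_pos (by omega)]
      rfl
    rw [hinc] at hA
    obtain _ | ⟨⟨a1, b1, c1⟩, A⟩ := A
    · simp at hA
    obtain _ | ⟨⟨a2, b2, c2⟩, A⟩ := A
    · simp at hA
    obtain _ | ⟨⟨a3, b3, c3⟩, A⟩ := A
    · simp at hA
    obtain _ | ⟨⟨a4, b4, c4⟩, A⟩ := A
    · simp at hA
    simp only [List.map_cons, List.cons.injEq, Prod.mk.injEq, List.map_eq_nil_iff] at hA
    obtain ⟨⟨rfl, rfl⟩, ⟨rfl, rfl⟩, ⟨rfl, rfl⟩, ⟨rfl, rfl⟩, rfl⟩ := hA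
    have hc : ((c1 : ZMod q) + c2) - (c3 + c4) ≠ (zh i (j - 1) + zv (i - 1) j) - (zh i j + zv i j) := by
      intro hc
      apply hne
      unfold chg dv
      rw [if_pos hin, if_pos (by omega), if_pos (by omega), if_pos (by omega), if_pos (by omega), add_zero, ← hc]
      simp [net]
      ring
    have hk := Cls_vert (h.op (i - 1) (j - 1)) (YH_op h i j) (YV_op h (i - 1) j) (h.sq (i - 1) (j - 1)) (YH_sq h i j)
      (YV_sq h (i - 1) j) (xYH h i1 i2 j1) (xYV h i1 i2) (a := a) hc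
    rw [← YH_step i1 i2 j1 j2, ← YV_step i1 i2 j1 j2] at hk
    simp only [List.map_cons, List.map_nil, List.prod_cons, List.prod_nil, mul_one]
    unfold OE
    rw [YE_he x hj', YE_he x hj, YE_ve x hj, YE_ve x hj, zE_he _ _ hj', zE_he _ _ hj, zE_ve _ _ hj, zE_ve _ _ hj]
    exact hk
  · by_contra hprod
    have hall : ∀ y ∈ A, (y.2.2 : ZMod q) = zE (fun i j => zh i j + bh m a i j) (fun i j => zv i j + bv m n a i j) N y.1 := by
      intro y hy
      by_contra hc
      apply hprod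
      refine List.prod_eq_zero (List.mem_map.2 ⟨y, hy, ?_⟩)
      have hmem : (y.1, y.2.1) ∈ inc M N i j := by
        rw [← hA]
        exact List.mem_map.2 ⟨y, hy, rfl⟩
      exact Cls_out h hm1 hn1 zh zv a hj hin hmem hc
    apply hne
    rw [Cls_net _ A hall, hA, Cls_dv _ _ hj]
    unfold chg
    rw [if_neg hin]
    unfold dv
    split_ifs <;> ring

end

end PPh
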