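import Pool.Agent.H94.TG.Net

/-!
Row GT_Size (project MP_28250c_GT): sizes of the Tseitin formulas.
PROOFS. `(inc M N i j).length ≤ 4` (four ifs). `(asg q l).length = q ^ l.length` (induction; `List.length_flatMap`), so `(eqc q (inc ..) s).length ≤ q ^ 4` (q ≥ 1; filter, map) and every clause has length
`(inc ..).length ≤ 4` (`mem_asg`: `a.map .. = l` gives the length). So `(eqc ..).size ≤ 5 q^4`. `(exone q ν).size ≤ (1 + q) + 3 q^2`: one clause of q literals and at most q * q clauses of two literals
(`flatMap` over `range q` of `range c'`). `(edg M N).length ≤ 2 M N`. Sizes are additive over `++` and `flatMap` (sum). `1 + q + 3 q^2 ≤ 5 q^4`. Indices: `he N i j = 2 (i N + j)`, `ve N i j = 2 (i N + j) + 1` are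
below `2 M N` for i < M, j < N (`inc_edg` and the definition of `edg`); `x.1 * q + x.2.2 < 2 M N q` for x.2.2 < q.
-/

set_option autoImplicit false
open Finset

namespace PPh

open ACpFrege

private theorem Size_append (F G : CNF) : CNF.size (F ++ G) = CNF.size F + CNF.size G := by
  unfold CNF.size
  rw [List.map_append, List.sum_append]

private theorem Size_flatMap {α : Type} (L : List α) (f : α → CNF) (B : ℕ) (h : ∀ x ∈ L, CNF.size (f x) ≤ B) :
    CNF.size (L.flatMap f) ≤ L.length * B := by
  induction L with
  | nil => simp [CNF.size]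
  | cons a L ih =>
    rw [List.flatMap_cons, Size_append, List.length_cons]
    have h1 := h a List.mem_cons_self
    have h2 := ih fun x hx => h x (List.mem_cons_of_mem _ hx)
    calc CNF.size (f a) + CNF.size (L.flatMap f) ≤ B + L.length * B := Nat.add_le_add h1 h2
      _ = (L.length + 1) * B := by ring

private theorem Size_len {α β : Type} (L : List α) (f : α → List β) (B : ℕ) (h : ∀ x ∈ L, (f x).length ≤ B) :
    (L.flatMap f).length ≤ L.length * B := by
  induction L with
  | nil => simp
  | cons a L ih =>
    rw [List.flatMap_cons, List.length_append, List.length_cons]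
    have h1 := h a List.mem_cons_self
    have h2 := ih fun x hx => h x (List.mem_cons_of_mem _ hx)
    calc (f a).length + (L.flatMap f).length ≤ B + L.length * B := Nat.add_le_add h1 h2
      _ = (L.length + 1) * B := by ring

private theorem Size_lenS (F : CNF) (k b : ℕ) (h : ∀ C ∈ F, C.length ≤ b) (hk : F.length ≤ k) : CNF.size F ≤ k * (1 + b) := by
  refine le_trans ?_ (Nat.mul_le_mul_right _ hk)
  clear hk
  induction F with
  | nil => simp [CNF.size]
  | cons C F ih =>
    have h1 := h C List.mem_cons_self
    have h2 := ih fun x hx => h x (List.mem_cons_of_mem _ hx)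
    have h3 : CNF.size (C :: F) = (1 + C.length) + CNF.size F := by
      unfold CNF.size
      rw [List.map_cons, List.sum_cons]
    rw [h3, List.length_cons]
    calc (1 + C.length) + CNF.size F ≤ (1 + b) + F.length * (1 + b) := by omega
      _ = (F.length + 1) * (1 + b) := by ring

private theorem Size_asg (q : ℕ) (l : List (ℕ × Bool)) : (asg q l).length = q ^ l.length := by
  induction l with
  | nil => simp [asg]
  | cons e l ih =>
    unfold asg
    rw [List.length_flatMap]
    simp only [List.length_map, ih]
    rw [List.map_const', List.sum_replicate, List.length_range, List.length_cons, smul_eq_mul]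
    ring

private theorem Size_inc (M N i j : ℕ) : (inc M N i j).length ≤ 4 := by
  unfold inc
  rw [List.length_append, List.length_append, List.length_append]
  split_ifs <;> simp

private theorem Size_asgl {q : ℕ} {l : List (ℕ × Bool)} {a : List (ℕ × Bool × ℕ)} (h : a ∈ asg q l) : a.length = l.length := by
  have h1 := (mem_asg.1 h).1
  rw [← h1, List.length_map]

private theorem Size_pow {q : ℕ} (hq : 1 ≤ q) (M N i j : ℕ) : (asg q (inc M N i j)).length ≤ q ^ 4 := by
  rw [Size_asg]
  exact Nat.pow_le_pow_right hq (Size_inc M N i j)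

private theorem Size_edgl (M N : ℕ) : (edg M N).length ≤ 2 * (M * N) := by
  unfold edg
  rw [List.length_append]
  have h1 := Size_len (List.range M) (fun i => (List.range (N - 1)).map fun j => he N i j) N (by
    intro x _
    rw [List.length_map, List.length_range]
    omega)
  have h2 := Size_len (List.range (M - 1)) (fun i => (List.range N).map fun j => ve N i j) N (by
    intro x _
    rw [List.length_map, List.length_range])
  rw [List.length_range] at h1 h2
  have h3 : (M - 1) * N ≤ M * N := Nat.mul_le_mul_right _ (by omega)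
  omega

private theorem Size_edgm {M N e : ℕ} (h : e ∈ edg M N) : e < 2 * M * N := by
  unfold edg at h
  rw [List.mem_append] at h
  rcases h with h | h
  · rw [List.mem_flatMap] at h
    obtain ⟨i, hi, h⟩ := h
    rw [List.mem_map] at h
    obtain ⟨j, hj, rfl⟩ := h
    rw [List.mem_range] at hi hj
    unfold he
    have h1 : (i + 1) * N ≤ M * N := Nat.mul_le_mul_right _ hi
    have h2 : (i + 1) * N = i * N + N := by ring
    have h3 : 2 * M * N = 2 * (M * N) := by ring
    omega
  · rw [List.mem_flatMap] at h
    obtain ⟨i, hi, h⟩ := h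
    rw [List.mem_map] at h
    obtain ⟨j, hj, rfl⟩ := h
    rw [List.mem_range] at hi hj
    unfold ve
    have h1 : (i + 1) * N ≤ M * N := Nat.mul_le_mul_right _ (by omega)
    have h2 : (i + 1) * N = i * N + N := by ring
    have h3 : 2 * M * N = 2 * (M * N) := by ring
    omega

private theorem Size_exone (q ν : ℕ) : CNF.size (exone q ν) ≤ (1 + q) + 3 * q ^ 2 := by
  unfold exone
  rw [Size_append]
  have h1 : CNF.size [(List.range q).map (isv q ν)] = 1 + q := by
    unfold CNF.size
    simp
  have h2 := Size_flatMap (List.range q) (fun c' => (List.range c').map fun c => [nov q ν c, nov q ν c']) (q * 3) (by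
    intro c' hc'
    rw [List.mem_range] at hc'
    refine le_trans (Size_lenS _ c' 2 ?_ ?_) ?_
    · intro C hC
      rw [List.mem_map] at hC
      obtain ⟨c, _, rfl⟩ := hC
      simp
    · rw [List.length_map, List.length_range]
    · exact Nat.mul_le_mul_right _ hc'.le)
  rw [List.length_range] at h2
  rw [h1]
  have h3 : q * (q * 3) = 3 * q ^ 2 := by ring
  omega

private theorem Size_eqcl {q M N i j : ℕ} {s : ZMod q} {C : List Lit} (h : C ∈ eqc q (inc M N i j) s) : C.length ≤ 4 := by
  unfold eqc at h
  rw [List.mem_map] at h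
  obtain ⟨a, ha, rfl⟩ := h
  rw [List.mem_filter] at ha
  rw [List.length_map, Size_asgl ha.1]
  exact Size_inc M N i j

private theorem Size_eqbl {M N i j : ℕ} {s : ZMod 2} {C : List Lit} (h : C ∈ eqb (inc M N i j) s) : C.length ≤ 4 := by
  unfold eqb at h
  rw [List.mem_map] at h
  obtain ⟨a, ha, rfl⟩ := h
  rw [List.mem_filter] at ha
  rw [List.length_map, Size_asgl ha.1]
  exact Size_inc M N i j

private theorem Size_eqc {q : ℕ} (hq : 1 ≤ q) (M N i j : ℕ) (s : ZMod q) : CNF.size (eqc q (inc M N i j) s) ≤ 5 * q ^ 4 := by
  have h1 := Size_lenS (eqc q (inc M N i j) s) (q ^ 4) 4 (fun C hC => Size_eqcl hC) (by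
    unfold eqc
    rw [List.length_map]
    exact le_trans (List.length_filter_le _ _) (Size_pow hq M N i j))
  omega

private theorem Size_eqb (M N i j : ℕ) (s : ZMod 2) : CNF.size (eqb (inc M N i j) s) ≤ 80 := by
  have h1 := Size_lenS (eqb (inc M N i j) s) (2 ^ 4) 4 (fun C hC => Size_eqbl hC) (by
    unfold eqb
    rw [List.length_map]
    exact le_trans (List.length_filter_le _ _) (Size_pow (by norm_num) M N i j))
  omega

private theorem Size_mem {q M N i j : ℕ} (hi : i < M) (hj : j < N) {a : List (ℕ × Bool × ℕ)} (h : a ∈ asg q (inc M N i j))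
    {x : ℕ × Bool × ℕ} (hx : x ∈ a) : x.1 < 2 * M * N ∧ x.2.2 < q := by
  have h1 := mem_asg.1 h
  refine ⟨?_, h1.2 x hx⟩
  have h2 : (x.1, x.2.1) ∈ inc M N i j := by
    rw [← h1.1, List.mem_map]
    exact ⟨x, hx, rfl⟩
  exact Size_edgm (inc_edg hi hj _ h2)

private theorem Size_idx {A q e c : ℕ} (he : e < A) (hc : c < q) : e * q + c < A * q := by
  have h1 : (e + 1) * q ≤ A * q := Nat.mul_le_mul_right _ he
  have h2 : (e + 1) * q = e * q + q := by ring
  omega

theorem tse_size {q M N : ℕ} (hq : 1 ≤ q) (σ : ℕ → ℕ → ZMod q) : (tse q M N σ).size ≤ 15 * q ^ 4 * (M * N) ∧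
    ∀ C ∈ tse q M N σ, C.length ≤ max 4 q ∧ ∀ l ∈ C, l.1 < 2 * M * N * q := by
  constructor
  · unfold tse
    rw [Size_append]
    have hq1 : 1 ≤ q ^ 4 := Nat.one_le_pow _ _ hq
    have hq2 : q ≤ q ^ 4 := by
      calc q = q ^ 1 := (pow_one q).symm
        _ ≤ q ^ 4 := Nat.pow_le_pow_right hq (by norm_num)
    have hq3 : q ^ 2 ≤ q ^ 4 := Nat.pow_le_pow_right hq (by norm_num)
    have h1 := Size_flatMap (edg M N) (exone q) (5 * q ^ 4) (fun x _ => by
      have := Size_exone q x
      omega)
    have h2 := Size_flatMap (List.range M) (fun i => (List.range N).flatMap fun j => eqc q (inc M N i j) (σ i j)) (N * (5 * q ^ 4)) (by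
      intro i _
      have h3 := Size_flatMap (List.range N) (fun j => eqc q (inc M N i j) (σ i j)) (5 * q ^ 4) (fun j _ => Size_eqc hq M N i j _)
      rwa [List.length_range] at h3)
    rw [List.length_range] at h2
    have h3 : (edg M N).length * (5 * q ^ 4) ≤ 2 * (M * N) * (5 * q ^ 4) := Nat.mul_le_mul_right _ (Size_edgl M N)
    calc CNF.size ((edg M N).flatMap (exone q)) +
        CNF.size ((List.range M).flatMap fun i => (List.range N).flatMap fun j => eqc q (inc M N i j) (σ i j))
        ≤ 2 * (M * N) * (5 * q ^ 4) + M * (N * (5 * q ^ 4)) := Nat.add_le_add (le_trans h1 h3) h2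
      _ = 15 * q ^ 4 * (M * N) := by ring
  · intro C hC
    unfold tse at hC
    rw [List.mem_append] at hC
    rcases hC with hC | hC
    · rw [List.mem_flatMap] at hC
      obtain ⟨e, he, hC⟩ := hC
      have he' := Size_edgm he
      unfold exone at hC
      rw [List.mem_append] at hC
      rcases hC with hC | hC
      · rw [List.mem_singleton] at hC
        subst hC
        constructor
        · rw [List.length_map, List.length_range]
          exact le_max_right _ _
        · intro l hl
          rw [List.mem_map] at hl
          obtain ⟨c, hc, rfl⟩ := hl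
          exact Size_idx he' (List.mem_range.1 hc)
      · rw [List.mem_flatMap] at hC
        obtain ⟨c', hc', hC⟩ := hC
        rw [List.mem_map] at hC
        obtain ⟨c, hc, rfl⟩ := hC
        rw [List.mem_range] at hc hc'
        constructor
        · exact le_trans (by simp) (le_max_left _ _)
        · intro l hl
          rw [List.mem_cons, List.mem_singleton] at hl
          rcases hl with rfl | rfl
          · exact Size_idx he' (by omega)
          · exact Size_idx he' hc'
    · rw [List.mem_flatMap] at hC
      obtain ⟨i, hi, hC⟩ := hC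
      rw [List.mem_flatMap] at hC
      obtain ⟨j, hj, hC⟩ := hC
      rw [List.mem_range] at hi hj
      refine ⟨le_trans (Size_eqcl hC) (le_max_left _ _), ?_⟩
      unfold eqc at hC
      rw [List.mem_map] at hC
      obtain ⟨a, ha, rfl⟩ := hC
      rw [List.mem_filter] at ha
      intro l hl
      rw [List.mem_map] at hl
      obtain ⟨x, hx, rfl⟩ := hl
      have h1 := Size_mem hi hj ha.1 hx
      exact Size_idx h1.1 h1.2

theorem tsb_size (M N : ℕ) (σ : ℕ → ℕ → ZMod 2) : (tsb M N σ).size ≤ 80 * (M * N) ∧
    ∀ C ∈ tsb M N σ, C.length ≤ 4 ∧ ∀ l ∈ C, l.1 < 2 * M * N := by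
  constructor
  · unfold tsb
    have h2 := Size_flatMap (List.range M) (fun i => (List.range N).flatMap fun j => eqb (inc M N i j) (σ i j)) (N * 80) (by
      intro i _
      have h3 := Size_flatMap (List.range N) (fun j => eqb (inc M N i j) (σ i j)) 80 (fun j _ => Size_eqb M N i j _)
      rwa [List.length_range] at h3)
    rw [List.length_range] at h2
    calc CNF.size ((List.range M).flatMap fun i => (List.range N).flatMap fun j => eqb (inc M N i j) (σ i j))
        ≤ M * (N * 80) := h2
      _ = 80 * (M * N) := by ring
  · intro C hC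
    unfold tsb at hC
    rw [List.mem_flatMap] at hC
    obtain ⟨i, hi, hC⟩ := hC
    rw [List.mem_flatMap] at hC
    obtain ⟨j, hj, hC⟩ := hC
    rw [List.mem_range] at hi hj
    refine ⟨Size_eqbl hC, ?_⟩
    unfold eqb at hC
    rw [List.mem_map] at hC
    obtain ⟨a, ha, rfl⟩ := hC
    rw [List.mem_filter] at ha
    intro l hl
    rw [List.mem_map] at hl
    obtain ⟨x, hx, rfl⟩ := hl
    exact (Size_mem hi hj ha.1 hx).1

end PPh
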