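import Pool.Agent.H94.TG.Main
import Pool.Agent.H94.TG.Size
import Pool.Agent.H94.PP.Final

/-!
helper94 (project MP_28250c_GT): Tseitin formulas of the grid.
-/

set_option autoImplicit false

namespace PPh

theorem mainTG : StatementTG := tg_of fun p _ => outM_all p

end PPh
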