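import Pool.Agent.H94.TG.Asm
import Pool.Agent.H94.TG.Num
import Pool.Agent.H75.PP.GOut

/-!
helper94 (project MP_28250c_TG): the main theorem, from `OutM`.
-/

set_option autoImplicit false
open Finset

namespace PPh

open ACpFrege

/-- The final statement: Tseitin formulas of the grid. -/
def StatementTG : Prop :=
  ∀ p : ℕ, p.Prime → ∀ S : List (Rule p), (∀ R ∈ S, R.Sound) → ∃ n₀ : ℕ, ∀ n ≥ n₀, ∀ d : ℕ,
    Real.log n ^ (d + 1) ≤ (n : ℝ) ^ (Real.log 2 / (400 * Real.log (2 * p + 4))) → ∀ M N : ℕ, n ≤ M → n ≤ N →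
      (∀ q : ℕ, 2 ≤ q → Nat.Coprime p q → ∀ σ : ℕ → ℕ → ZMod q, ∑ i ∈ range M, ∑ j ∈ range N, σ i j ≠ 0 →
        ∀ π : List (Fm p), Refutes S d (tse q M N σ) π →
          (2 : ℝ) ^ ((n : ℝ) ^ (Real.log 2 / (400 * Real.log (2 * p + 4)) / (d + 1))) ≤ psize π) ∧
      (p ≠ 2 → ∀ σ : ℕ → ℕ → ZMod 2, ∑ i ∈ range M, ∑ j ∈ range N, σ i j ≠ 0 →
        ∀ π : List (Fm p), Refutes S d (tsb M N σ) π →
          (2 : ℝ) ^ ((n : ℝ) ^ (Real.log 2 / (400 * Real.log (2 * p + 4)) / (d + 1))) ≤ psize π)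

theorem tg_of (hM : ∀ (p : ℕ) [Fact p.Prime], OutM p) : StatementTG := by
  intro p hp S hS
  have : Fact p.Prime := ⟨hp⟩
  obtain ⟨l₁, hl₁⟩ := hM p
  obtain ⟨n₀, hn₀⟩ := tg_num hp (H := fun n F L A R del => HasGmW 4 p n F L A R del) (Sd.outGW p 4) S hS l₁
  refine ⟨n₀, fun n hn d hd M N hMn hNn => ?_⟩
  obtain ⟨l, hl, hln, hF⟩ := hn₀ n hn d hd
  have hp2 := hp.two_le
  have hB : 1 ≤ (2 * p + 4) ^ (5 * l) := Nat.one_le_pow _ _ (by omega)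
  have hgm := fun L hL => hl₁ l hl ((2 * p + 4) ^ (5 * l)) L le_rfl hL
  have hun : ∀ q : ℕ, Nat.Coprime p q → IsUnit ((((2 * p + 4) ^ (5 * l) : ℕ) : ZMod q) - (((2 * p + 4) ^ (5 * l) + p ^ l : ℕ) : ZMod q)) := by
    intro q hc
    have h1 : IsUnit ((p ^ l : ℕ) : ZMod q) := (ZMod.isUnit_iff_coprime _ _).2 (Nat.Coprime.pow_left l hc)
    have h2 : (((2 * p + 4) ^ (5 * l) : ℕ) : ZMod q) - (((2 * p + 4) ^ (5 * l) + p ^ l : ℕ) : ZMod q) = -((p ^ l : ℕ) : ZMod q) := by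
      push_cast
      ring
    rw [h2]
    exact h1.neg
  refine ⟨fun q hq hpq σ hσ π hπ => ?_, fun h2 σ hσ π hπ => ?_⟩
  · exact hF _ _ (fun L hL => tse_gm hq (hun q hpq) (by omega) hB (by omega) (by omega) hσ (hgm L hL)) π hπ
  · have hc : Nat.Coprime p 2 := (Nat.coprime_primes hp Nat.prime_two).2 h2
    exact hF _ _ (fun L hL => tsb_gm (hun 2 hc) (by omega) hB (by omega) (by omega) hσ (hgm L hL)) π hπ

end PPh
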