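import Pool.Agent.H94.TG.Defs

/-!
Row TGR (project MP_28250c_TG): ring identities for the value operators `wop`.
PROOFS. `wop J Y z a c` is `J - Y` (c = z), `Y` (c = z + a, and a ≠ 0 so c ≠ z), 0 otherwise. `wop_idem`: cases; `(J-Y)(J-Y) = JJ - 2JY + YY = J(J-Y)` by `h`
(linear_combination h). `wop_ne`: for c ≠ c' both factors nonzero only if {c, c'} = {z, z+a}: `Y (J - Y) = 0`. `wop_sum`: exactly the residues z and
z + a (different) contribute: J - Y + Y = J (`Finset.sum_eq_add`, or split `Finset.sum_ite`). `vert_ring`: if some c_k is neither z_k nor z_k + a the factor is 0.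
Otherwise c_k = z_k + b_k a with b_k in {0,1} (16 cases; `unfold wop; split_ifs`), and hc says a (b1 + b2 - b3 - b4) ≠ 0, so b1 + b2 ≠ b3 + b4. The allowed
patterns (b1,b2,b3,b4) = (0,0,0,0), (1,0,1,0), (0,1,0,1), (1,1,1,1), (1,0,0,1), (0,1,1,0): here hc is contradictory (close with
`exact absurd (by subst_vars; ring) hc`, or linear_combination). In the other ten cases the product of the four factors (b = 0: J - Y, b = 1: Y;
Y1 = H + X, Y2 = V, Y3 = H, Y4 = V + X) vanishes by
  (0,·,1,·): (J - H - X) H = 0;   (·,1,·,0): V (J - V - X) = 0;   (1,·,0,·): (H + X)(J - H) = X J, and X J (J - V - X) = 0 for b4 = 0, X J V = 0 for b2 = 1;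
  (·,0,·,1): (J - V)(V + X) = J X, and J X (J - H - X) = 0 for b1 = 0, J X H = 0 for b3 = 1.
Each is a `linear_combination` of the five hypotheses with suitable coefficients (helper85's `step_ring` in H85/PC/Sub.lean is a model).
(0,1,1,0) is in fact also excluded by the first identity but need not be: it is allowed by hc.
-/

set_option autoImplicit false
open Finset

namespace PPh

section
variable {R : Type} [CommRing R] {q : ℕ} {J X H V Y : R}

theorem wop_idem (h : Y * Y = J * Y) (z a c : ZMod q) : wop J Y z a c * wop J Y z a c = J * wop J Y z a c := by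
  unfold wop
  split_ifs
  · linear_combination h
  · exact h
  · simp

theorem wop_ne (h : Y * Y = J * Y) (z a : ZMod q) {c c' : ZMod q} (hc : c ≠ c') : wop J Y z a c * wop J Y z a c' = 0 := by
  unfold wop
  by_cases h1 : c = z
  · rw [if_pos h1]
    by_cases h2 : c' = z
    · exact absurd (h1.trans h2.symm) hc
    · rw [if_neg h2]
      split_ifs
      · linear_combination -h
      · simp
  · rw [if_neg h1]
    by_cases h3 : c = z + a
    · rw [if_pos h3]
      by_cases h2 : c' = z
      · rw [if_pos h2]
        linear_combination -h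
      · rw [if_neg h2]
        by_cases h4 : c' = z + a
        · exact absurd (h3.trans h4.symm) hc
        · rw [if_neg h4, mul_zero]
    · rw [if_neg h3, zero_mul]

/-- Either zero or one of the two values. -/
theorem wop_cases (J Y : R) (z a c : ZMod q) : wop J Y z a c = 0 ∨ (c = z ∧ wop J Y z a c = J - Y) ∨ (c = z + a ∧ wop J Y z a c = Y) := by
  unfold wop
  split_ifs with h1 h2
  · exact Or.inr (Or.inl ⟨h1, rfl⟩)
  · exact Or.inr (Or.inr ⟨h2, rfl⟩)
  · exact Or.inl rfl

theorem vert_ring (hX : X * X = J * X) (hH : H * H = J * H) (hV : V * V = J * V) (hXH : X * H = 0) (hXV : X * V = 0)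
    {a z1 z2 z3 z4 c1 c2 c3 c4 : ZMod q} (hc : (c1 + c2) - (c3 + c4) ≠ (z1 + z2) - (z3 + z4)) :
    wop J (H + X) z1 a c1 * (wop J V z2 a c2 * (wop J H z3 a c3 * wop J (V + X) z4 a c4)) = 0 := by
  have e1 : (J - (H + X)) * H = 0 := by linear_combination -hH - hXH
  have e2 : V * (J - (V + X)) = 0 := by linear_combination -hV - hXV
  have e3 : (H + X) * (J - H) = X * J := by linear_combination -hH - hXH
  have e4 : (J - V) * (V + X) = J * X := by linear_combination -hV - hXV
  have e5 : X * (J - (V + X)) = 0 := by linear_combination -hX - hXV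
  have e6 : X * (J - (H + X)) = 0 := by linear_combination -hX - hXH
  rcases wop_cases J (H + X) z1 a c1 with h1 | ⟨g1, h1⟩ | ⟨g1, h1⟩
  · rw [h1, zero_mul]
  all_goals rcases wop_cases J V z2 a c2 with h2 | ⟨g2, h2⟩ | ⟨g2, h2⟩
  any_goals rw [h2, zero_mul, mul_zero]
  all_goals rcases wop_cases J H z3 a c3 with h3 | ⟨g3, h3⟩ | ⟨g3, h3⟩
  any_goals rw [h3, zero_mul, mul_zero, mul_zero]
  all_goals rcases wop_cases J (V + X) z4 a c4 with h4 | ⟨g4, h4⟩ | ⟨g4, h4⟩
  any_goals rw [h4, mul_zero, mul_zero, mul_zero]
  all_goals rw [h1, h2, h3, h4]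
  all_goals first
    | (exfalso; apply hc; rw [g1, g2, g3, g4]; done)
    | (exfalso; apply hc; rw [g1, g2, g3, g4]; ring1)
    | linear_combination (V * (V + X)) * e1
    | linear_combination ((J - V) * (V + X)) * e1
    | linear_combination (V * (J - (V + X))) * e1
    | linear_combination ((J - V) * (J - (V + X))) * e1
    | linear_combination ((H + X) * H) * e2
    | linear_combination ((H + X) * (J - H)) * e2
    | linear_combination ((J - (H + X)) * H) * e2
    | linear_combination ((J - (H + X)) * (J - H)) * e2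
    | linear_combination ((J - V) * (J - (V + X))) * e3 + ((J - V) * J) * e5
    | linear_combination (V * (J - (V + X))) * e3 + (V * J) * e5
    | linear_combination (V * (V + X)) * e3 + (J * (V + X)) * hXV
    | linear_combination ((J - (H + X)) * (J - H)) * e4 + (J * (J - H)) * e6
    | linear_combination ((J - (H + X)) * H) * e4 + (J * H) * e6
    | linear_combination ((H + X) * H) * e4 + (J * (H + X)) * hXH

end

theorem wop_sum {R : Type} [Ring R] {q : ℕ} [NeZero q] (J Y : R) (z : ZMod q) {a : ZMod q} (ha : a ≠ 0) : ∑ c : ZMod q, wop J Y z a c = J := by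
  have h0 : z ≠ z + a := fun h => ha (by simpa using h.symm)
  have h : ∀ c : ZMod q, wop J Y z a c = (if c = z then J - Y else 0) + (if c = z + a then Y else 0) := by
    intro c
    unfold wop
    by_cases h1 : c = z
    · rw [if_pos h1, if_pos h1, if_neg (by rw [h1]; exact h0), add_zero]
    · rw [if_neg h1, if_neg h1, zero_add]
  rw [Finset.sum_congr rfl fun c _ => h c, Finset.sum_add_distrib, Finset.sum_ite_eq', Finset.sum_ite_eq', if_pos (Finset.mem_univ _),
    if_pos (Finset.mem_univ _), sub_add_cancel]

theorem wop_zero {R : Type} [Ring R] {q : ℕ} (J : R) {z a c : ZMod q} (hc : c ≠ z) : wop J 0 z a c = 0 := by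
  unfold wop
  rw [if_neg hc]
  split_ifs <;> rfl

theorem wop_one {R : Type} [Ring R] {q : ℕ} (J : R) {z a c : ZMod q} (hc : c ≠ z + a) : wop J J z a c = 0 := by
  unfold wop
  rw [if_neg hc, sub_self]
  split_ifs <;> rfl

end PPh
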