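import Pool.Agent.H94.TG.Defs

/-!
Row TGS (project MP_28250c_TG): flows with given charges on the grid.
PROOFS. `dv_total`: the total of `dv` telescopes. For fixed `i`: `∑_(j<N) [(if 0 < j then h i (j-1) else 0) - (if j + 1 < N then h i j else 0)] = 0`: both sums are
`∑_(j < N-1) h i j` (`Finset.sum_range_succ'` for the first, `sum_range_succ` for the second; N = 0 trivial, N = n + 1). Same for columns after `Finset.sum_comm`.
`flow_sol`: put `h i j := ∑_(k ∈ Ico (j+1) N) τ i k` (edge (i,j)-(i,j+1) brings everything demanded to the right of it) and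
`v i j := if j = 0 then ∑_(i' ∈ Ico (i+1) M) ∑_(k<N) τ i' k else 0`. Check at (i, j): for 0 < j: `h i (j-1) - (if j+1<N then h i j else 0) = ∑_(Ico j N) - ∑_(Ico (j+1) N) = τ i j`
(if j + 1 = N then `h i j` is the empty sum anyway: 0) and the v-terms are 0. For j = 0: `(if 0 < i then v (i-1) 0 else 0) - (if i+1<M then v i 0 else 0) - h i 0`; for 0 < i:
`v (i-1) 0 = ∑_(i' ∈ Ico i M) row i'`, `v i 0 = ∑_(Ico (i+1) M)`, difference = row i = `∑_(k<N) τ i k`, and `h i 0 = ∑_(k ∈ Ico 1 N) τ i k` (0 if N = 1), so `τ i 0` remains. For i = 0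
replace `v (i-1) 0` by `∑_(i' ∈ Ico 0 M) row i' = 0` (hypothesis h0). Useful: `Finset.sum_eq_sum_Ico_succ_bot`.
-/

set_option autoImplicit false
open Finset

namespace PPh

variable {G : Type} [AddCommGroup G]

private theorem Sol_tel (a : ℕ → G) (N : ℕ) :
    ∑ j ∈ range N, ((if 0 < j then a (j - 1) else 0) - (if j + 1 < N then a j else 0)) = 0 := by
  rcases N with _ | n
  · simp
  · rw [sum_sub_distrib, sum_range_succ', sum_range_succ (fun j => if j + 1 < n + 1 then a j else 0)]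
    have h1 : ∑ j ∈ range n, (if 0 < j + 1 then a (j + 1 - 1) else 0) = ∑ j ∈ range n, a j := by
      refine sum_congr rfl fun j _ => ?_
      rw [if_pos (Nat.succ_pos j), Nat.add_sub_cancel]
    have h2 : ∑ j ∈ range n, (if j + 1 < n + 1 then a j else 0) = ∑ j ∈ range n, a j := by
      refine sum_congr rfl fun j hj => ?_
      rw [if_pos (Nat.succ_lt_succ (mem_range.1 hj))]
    rw [h1, h2, if_neg (lt_irrefl 0), if_neg (lt_irrefl (n + 1))]
    abel

theorem dv_total (M N : ℕ) (h v : ℕ → ℕ → G) : ∑ i ∈ range M, ∑ j ∈ range N, dv M N h v i j = 0 := by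
  have e : ∀ i j, dv M N h v i j = ((if 0 < j then h i (j - 1) else 0) - (if j + 1 < N then h i j else 0)) +
      ((if 0 < i then v (i - 1) j else 0) - (if i + 1 < M then v i j else 0)) := by
    intro i j
    unfold dv
    abel
  have h1 : ∑ i ∈ range M, ∑ j ∈ range N, ((if 0 < j then h i (j - 1) else 0) - (if j + 1 < N then h i j else 0)) = 0 :=
    sum_eq_zero fun i _ => Sol_tel (h i) N
  have h2 : ∑ i ∈ range M, ∑ j ∈ range N, ((if 0 < i then v (i - 1) j else 0) - (if i + 1 < M then v i j else 0)) = 0 := by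
    rw [sum_comm]
    exact sum_eq_zero fun j _ => Sol_tel (fun i => v i j) M
  rw [sum_congr rfl fun i _ => sum_congr rfl fun j _ => e i j]
  rw [sum_congr rfl fun i _ => sum_add_distrib, sum_add_distrib, h1, h2, add_zero]

theorem flow_sol {M N : ℕ} (τ : ℕ → ℕ → G) (h0 : ∑ i ∈ range M, ∑ j ∈ range N, τ i j = 0) :
    ∃ h v : ℕ → ℕ → G, ∀ i < M, ∀ j < N, dv M N h v i j = τ i j := by
  refine ⟨fun i j => ∑ k ∈ Ico (j + 1) N, τ i k,
    fun i j => if j = 0 then ∑ i' ∈ Ico (i + 1) M, ∑ k ∈ range N, τ i' k else 0, fun i hi j hj => ?_⟩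
  unfold dv
  have hC : (if j + 1 < N then ∑ k ∈ Ico (j + 1) N, τ i k else 0) = ∑ k ∈ Ico (j + 1) N, τ i k := by
    by_cases hN : j + 1 < N
    · rw [if_pos hN]
    · rw [if_neg hN, Ico_eq_empty (by omega), sum_empty]
  rcases j with _ | j
  · have hB : (if 0 < i then (if (0 : ℕ) = 0 then ∑ i' ∈ Ico (i - 1 + 1) M, ∑ k ∈ range N, τ i' k else 0) else 0) =
        ∑ i' ∈ Ico i M, ∑ k ∈ range N, τ i' k := by
      rcases i with _ | i
      · rw [if_neg (lt_irrefl 0), ← range_eq_Ico, h0]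
      · rw [if_pos (Nat.succ_pos i), if_pos rfl, Nat.add_sub_cancel]
    have hD : (if i + 1 < M then (if (0 : ℕ) = 0 then ∑ i' ∈ Ico (i + 1) M, ∑ k ∈ range N, τ i' k else 0) else 0) =
        ∑ i' ∈ Ico (i + 1) M, ∑ k ∈ range N, τ i' k := by
      by_cases hM : i + 1 < M
      · rw [if_pos hM, if_pos rfl]
      · rw [if_neg hM, Ico_eq_empty (by omega), sum_empty]
    have hR : ∑ i' ∈ Ico i M, ∑ k ∈ range N, τ i' k = (τ i 0 + ∑ k ∈ Ico (0 + 1) N, τ i k) +
        ∑ i' ∈ Ico (i + 1) M, ∑ k ∈ range N, τ i' k := by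
      rw [sum_eq_sum_Ico_succ_bot hi, range_eq_Ico, sum_eq_sum_Ico_succ_bot hj]
    simp only [] at hB hD ⊢
    rw [if_neg (lt_irrefl 0), hB, hC, hD, hR]
    abel
  · have hA : ∑ k ∈ Ico (j + 1) N, τ i k = τ i (j + 1) + ∑ k ∈ Ico (j + 1 + 1) N, τ i k :=
      sum_eq_sum_Ico_succ_bot hj _
    have hz : ¬ (j + 1 = 0) := Nat.succ_ne_zero j
    simp only [if_neg hz, ite_self]
    rw [hC, if_pos (Nat.succ_pos j), Nat.add_sub_cancel, hA]
    abel

end PPh
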